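import Pool.Agent.Q36.HV.D

/-!
# The sum of the linear parts
-/

set_option autoImplicit false

namespace Q36.HV

open Pool.Agent.W594.SYZ2 Pool.Agent.W594.SYZ2.TQ Q47.FJ

variable {V : Type*} [NormedAddCommGroup V] [NormedSpace ℂ V]

/-- The sum of the linear parts. -/
noncomputable def SS (Γ : Subgroup (V ≃ᵃ[ℂ] V)) [Fintype (Lin Γ)] : V →ₗ[ℂ] V :=
  ∑ g : Lin Γ, (g.1 : V →ₗ[ℂ] V)

variable {Γ : Subgroup (V ≃ᵃ[ℂ] V)} [Fintype (Lin Γ)]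

theorem SS_apply (v : V) : SS Γ v = ∑ g : Lin Γ, g.1 v := by
  rw [SS, LinearMap.sum_apply]
  rfl

theorem SS_lin {γ : V ≃ᵃ[ℂ] V} (hγ : γ ∈ Γ) (v : V) : SS Γ (γ.linear v) = SS Γ v := by
  rw [SS_apply, SS_apply]
  let h : Lin Γ := ⟨γ.linear, γ, hγ, rfl⟩
  exact Fintype.sum_equiv (Equiv.mulRight h) _ _ fun g => rfl

theorem lin_SS {γ : V ≃ᵃ[ℂ] V} (hγ : γ ∈ Γ) (v : V) : γ.linear (SS Γ v) = SS Γ v := by
  rw [SS_apply, map_sum]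
  let h : Lin Γ := ⟨γ.linear, γ, hγ, rfl⟩
  exact Fintype.sum_equiv (Equiv.mulLeft h) _ _ fun g => rfl

theorem SS_fix {v : V} (hv : ∀ γ ∈ Γ, γ.linear v = v) :
    SS Γ v = (Fintype.card (Lin Γ) : ℕ) • v := by
  rw [SS_apply]
  have h1 : ∀ g : Lin Γ, g.1 v = v := by
    rintro ⟨g, γ, hγ, rfl⟩
    exact hv γ hγ
  rw [Finset.sum_congr rfl fun g _ => h1 g, Finset.sum_const, Finset.card_univ]

theorem SS_SS (v : V) : SS Γ (SS Γ v) = (Fintype.card (Lin Γ) : ℕ) • SS Γ v :=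
  SS_fix fun _ hγ => lin_SS hγ v

theorem SS_latt {b : V} (hb : b ∈ latt Γ) : SS Γ b ∈ latt Γ := by
  rw [SS_apply]
  refine (latt Γ).sum_mem ?_
  rintro ⟨g, γ, hγ, rfl⟩ _
  exact latt_inv γ hγ hb

theorem SS_mul {γ : V ≃ᵃ[ℂ] V} (hγ : γ ∈ Γ) (δ : V ≃ᵃ[ℂ] V) :
    SS Γ ((γ * δ) 0) = SS Γ (γ 0) + SS Γ (δ 0) := by
  rw [mul_zero_pt, map_add, SS_lin hγ, add_comm]

theorem SS_inv {γ : V ≃ᵃ[ℂ] V} (hγ : γ ∈ Γ) : SS Γ ((γ⁻¹) 0) = -SS Γ (γ 0) := by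
  rw [inv_zero_pt, map_neg, SS_lin (Γ.inv_mem hγ)]

theorem SS_adj {H : V → V → ℂ} (hH : IsHermitian H)
    (hi : ∀ γ ∈ Γ, ∀ v w, H (γ.linear v) (γ.linear w) = H v w) (x y : V) :
    H (SS Γ x) y = H x (SS Γ y) := by
  have h1 : ∀ s : Finset (Lin Γ), H (∑ g ∈ s, g.1 x) y = ∑ g ∈ s, H (g.1 x) y := by
    classical
    intro s
    induction s using Finset.induction_on with
    | empty => rw [Finset.sum_empty, Finset.sum_empty, h_zero_left hH]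
    | insert g s hg ih => rw [Finset.sum_insert hg, Finset.sum_insert hg, hH.add_left, ih]
  have h2 : ∀ s : Finset (Lin Γ), H x (∑ g ∈ s, g.1 y) = ∑ g ∈ s, H x (g.1 y) := by
    classical
    intro s
    induction s using Finset.induction_on with
    | empty => rw [Finset.sum_empty, Finset.sum_empty, h_zero_right hH]
    | insert g s hg ih => rw [Finset.sum_insert hg, Finset.sum_insert hg, h_add_right hH, ih]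
  rw [SS_apply, SS_apply, h1, h2]
  refine Fintype.sum_equiv (Equiv.inv (Lin Γ)) _ _ ?_
  intro g
  obtain ⟨γ, hγ, hg⟩ := g.2
  have h3 := hi γ hγ x ((g⁻¹ : Lin Γ).1 y)
  have h4 : γ.linear ((g⁻¹ : Lin Γ).1 y) = y := by
    have h5 : γ.linear = g.1 := hg
    rw [h5]
    exact g.1.apply_symm_apply y
  have h6 : γ.linear x = g.1 x := by
    have h5 : γ.linear = g.1 := hg
    rw [h5]
  rw [h4, h6] at h3
  exact h3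

theorem card_ne : (Fintype.card (Lin Γ) : ℂ) ≠ 0 := by
  exact_mod_cast Fintype.card_ne_zero

/-- The kernel of the sum of the linear parts. -/
theorem mem_coinv {v : V} : v ∈ coinv Γ ↔ SS Γ v = 0 := by
  constructor
  · intro hv
    induction hv using Submodule.span_induction with
    | mem x hx =>
      obtain ⟨γ, hγ, w, rfl⟩ := hx
      rw [map_sub, SS_lin hγ, sub_self]
    | zero => exact map_zero _
    | add x y _ _ hx hy => rw [map_add, hx, hy, add_zero]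
    | smul a x _ hx => rw [map_smul, hx, smul_zero]
  · intro hv
    have h1 : ∑ g : Lin Γ, (g.1 v - v) ∈ coinv Γ := by
      refine (coinv Γ).sum_mem ?_
      rintro ⟨g, γ, hγ, rfl⟩ _
      exact coinv_mem hγ v
    rw [Finset.sum_sub_distrib, ← SS_apply, hv, zero_sub, Finset.sum_const, Finset.card_univ,
      ← Nat.cast_smul_eq_nsmul ℂ] at h1
    have h2 := (coinv Γ).smul_mem (Fintype.card (Lin Γ) : ℂ)⁻¹ ((coinv Γ).neg_mem h1)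
    rwa [neg_neg, smul_smul, inv_mul_cancel₀ card_ne, one_smul] at h2

theorem mem_alb {γ : V ≃ᵃ[ℂ] V} :
    γ ∈ alb Γ ↔ γ ∈ Γ ∧ ∃ b ∈ latt Γ, SS Γ (γ 0) = SS Γ b := by
  have h1 : ∀ b, γ 0 - b ∈ coinv Γ ↔ SS Γ (γ 0) = SS Γ b := fun b => by
    rw [mem_coinv, map_sub, sub_eq_zero]
  constructor
  · rintro ⟨h, b, hb, h2⟩
    exact ⟨h, b, hb, (h1 b).1 h2⟩
  · rintro ⟨h, b, hb, h2⟩
    exact ⟨h, b, hb, (h1 b).2 h2⟩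

end Q36.HV

namespace Q36.HV

open Pool.Agent.W594.SYZ2 Pool.Agent.W594.SYZ2.TQ Q47.FJ

variable {V : Type*} [NormedAddCommGroup V] [NormedSpace ℂ V] {Γ Δ : Subgroup (V ≃ᵃ[ℂ] V)}

/-- The subgroup of the translations. -/
def tra (Γ : Subgroup (V ≃ᵃ[ℂ] V)) : Subgroup (V ≃ᵃ[ℂ] V) := Γ ⊓ AffineEquiv.linearHom.ker

theorem mem_tra {γ : V ≃ᵃ[ℂ] V} : γ ∈ tra Γ ↔ γ ∈ Γ ∧ ∀ v, γ.linear v = v := by
  refine ⟨fun h => ⟨h.1, fun v => ?_⟩, fun h => ⟨h.1, ?_⟩⟩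
  · have h1 : γ.linear = 1 := h.2
    rw [h1]
    rfl
  · have h1 : γ.linear = 1 := LinearEquiv.ext h.2
    exact h1

theorem tra_le (Γ : Subgroup (V ≃ᵃ[ℂ] V)) : tra Γ ≤ Γ := inf_le_left

theorem eq_tra {γ : V ≃ᵃ[ℂ] V} (h : ∀ v, γ.linear v = v) :
    γ = AffineEquiv.constVAdd ℂ V (γ 0) := by
  apply AffineEquiv.ext
  intro v
  rw [act, h v, AffineEquiv.constVAdd_apply, vadd_eq_add, add_comm]

theorem latt_of_tra {γ : V ≃ᵃ[ℂ] V} (h : γ ∈ tra Γ) : γ 0 ∈ latt Γ := by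
  rw [mem_tra] at h
  rw [mem_latt, ← eq_tra h.2]
  exact h.1

theorem tra_of_latt {b : V} (hb : b ∈ latt Γ) : AffineEquiv.constVAdd ℂ V b ∈ tra Γ :=
  mem_tra.2 ⟨hb, fun _ => rfl⟩

theorem latt_tra : latt (tra Γ) = latt Γ := by
  ext b
  exact ⟨fun h => h.1, fun h => tra_of_latt h⟩

theorem latt_alb : latt (alb Γ) = latt Γ := by
  ext b
  refine ⟨fun h => h.1, fun h => ⟨h, b, h, ?_⟩⟩
  have h1 : (AffineEquiv.constVAdd ℂ V b) 0 - b = 0 := by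
    rw [AffineEquiv.constVAdd_apply, vadd_eq_add, add_zero, sub_self]
  rw [h1]
  exact (coinv Γ).zero_mem

theorem tra_le_alb : tra Γ ≤ alb Γ := by
  intro γ hγ
  refine ⟨hγ.1, γ 0, latt_of_tra hγ, ?_⟩
  rw [sub_self]
  exact (coinv Γ).zero_mem

theorem Sec.mono {e : (V ≃ᵃ[ℂ] V) → V → ℂ} {f : V → ℂ} (h : Sec Γ e f) (hle : Δ ≤ Γ) :
    Sec Δ e f := ⟨h.holo, fun γ hγ => h.eq γ (hle hγ)⟩

theorem PD.mono {e : (V ≃ᵃ[ℂ] V) → V → ℂ} {H : V → V → ℂ} (h : PD Γ e H) (hle : Δ ≤ Γ) :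
    PD Δ e H := ⟨h.herm, h.pos, fun γ hγ => h.inv γ (hle hγ),
  fun γ hγ δ hδ => h.mul γ (hle hγ) δ (hle hδ), fun γ hγ => h.eq γ (hle hγ)⟩

theorem Uch.mono {χ : (V ≃ᵃ[ℂ] V) → ℂ} (h : Uch Γ χ) (hle : Δ ≤ Γ) : Uch Δ χ :=
  ⟨fun γ hγ => h.norm γ (hle hγ), fun γ hγ δ hδ => h.mul γ (hle hγ) δ (hle hδ)⟩

theorem Pr.mono (hle : Δ ≤ Γ) : ∀ (m : ℕ) (e : (V ≃ᵃ[ℂ] V) → V → ℂ), Pr Γ m e → Pr Δ m e
  | 0, _, ⟨H, h⟩ => ⟨H, h.mono hle⟩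
  | m + 1, _, ⟨e₁, e₂, h1, ⟨H, h2⟩, h3⟩ =>
    ⟨e₁, e₂, Pr.mono hle m e₁ h1, ⟨H, h2.mono hle⟩, fun γ hγ => h3 γ (hle hγ)⟩

theorem Uch.one {χ : (V ≃ᵃ[ℂ] V) → ℂ} (h : Uch Γ χ) : χ 1 = 1 := by
  have h1 := h.mul 1 Γ.one_mem 1 Γ.one_mem
  rw [mul_one] at h1
  have h2 : χ 1 ≠ 0 := fun h0 => by
    have := h.norm 1 Γ.one_mem
    rw [h0, norm_zero] at this
    exact zero_ne_one this
  exact (mul_left_cancel₀ h2 (by rw [mul_one]; exact h1)).symm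

theorem Uch.ne {χ : (V ≃ᵃ[ℂ] V) → ℂ} (h : Uch Γ χ) {γ : V ≃ᵃ[ℂ] V} (hγ : γ ∈ Γ) : χ γ ≠ 0 := by
  intro h0
  have := h.norm γ hγ
  rw [h0, norm_zero] at this
  exact zero_ne_one this

/-- The factor `e` twisted by the character `χ`. -/
def twi (e : (V ≃ᵃ[ℂ] V) → V → ℂ) (χ : (V ≃ᵃ[ℂ] V) → ℂ) : (V ≃ᵃ[ℂ] V) → V → ℂ :=
  fun γ z => e γ z * χ γ

theorem PD.twi {e : (V ≃ᵃ[ℂ] V) → V → ℂ} {H : V → V → ℂ} {χ : (V ≃ᵃ[ℂ] V) → ℂ}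
    (h : PD Γ e H) (hχ : Uch Γ χ) : PD Γ (twi e χ) H where
  herm := h.herm
  pos := h.pos
  inv := h.inv
  mul γ hγ δ hδ z := by
    rw [HV.twi, HV.twi, HV.twi, h.mul γ hγ δ hδ, hχ.mul γ hγ δ hδ]
    ring
  eq γ hγ := by
    obtain ⟨c, hc, h1⟩ := h.eq γ hγ
    refine ⟨c * χ γ, by rw [norm_mul, hc, hχ.norm γ hγ, one_mul], fun z => ?_⟩
    rw [HV.twi, h1]
    ring

theorem PD.mulp {e e₁ e₂ : (V ≃ᵃ[ℂ] V) → V → ℂ} {H₁ H₂ : V → V → ℂ} (h₁ : PD Γ e₁ H₁)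
    (h₂ : PD Γ e₂ H₂) (h : ∀ γ ∈ Γ, ∀ z, e γ z = e₁ γ z * e₂ γ z) :
    PD Γ e fun v w => H₁ v w + H₂ v w where
  herm := IsHermitian.add h₁.herm h₂.herm
  pos v hv := by
    rw [Complex.add_re]
    exact add_pos (h₁.pos v hv) (h₂.pos v hv)
  inv γ hγ v w := by rw [h₁.inv γ hγ, h₂.inv γ hγ]
  mul γ hγ δ hδ z := by
    rw [h _ (Γ.mul_mem hγ hδ), h γ hγ, h δ hδ, h₁.mul γ hγ δ hδ, h₂.mul γ hγ δ hδ]
    ring
  eq γ hγ := by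
    obtain ⟨c, hc, h3⟩ := h₁.eq γ hγ
    obtain ⟨d, hd, h4⟩ := h₂.eq γ hγ
    refine ⟨c * d, by rw [norm_mul, hc, hd, one_mul], fun z => ?_⟩
    rw [h γ hγ, h3, h4, mul_mul_mul_comm, ← Complex.exp_add]
    congr 2
    simp only [lex]
    ring

theorem Pr.twi {χ : (V ≃ᵃ[ℂ] V) → ℂ} (hχ : Uch Γ χ) : ∀ (m : ℕ) (e : (V ≃ᵃ[ℂ] V) → V → ℂ),
    Pr Γ m e → Pr Γ m (twi e χ)
  | 0, _, ⟨H, h⟩ => ⟨H, h.twi hχ⟩
  | m + 1, _, ⟨e₁, e₂, h1, ⟨H, h2⟩, h3⟩ =>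
    ⟨e₁, HV.twi e₂ χ, h1, ⟨H, h2.twi hχ⟩, fun γ hγ z => by
      rw [HV.twi, HV.twi, h3 γ hγ, mul_assoc]⟩

/-- Products are positive. -/
theorem Pr.pd : ∀ (m : ℕ) (e : (V ≃ᵃ[ℂ] V) → V → ℂ), Pr Γ m e → ∃ H, PD Γ e H
  | 0, _, h => h
  | m + 1, _, ⟨_, _, h1, ⟨_, h2⟩, h3⟩ => by
    obtain ⟨H', h4⟩ := Pr.pd m _ h1
    exact ⟨_, h4.mulp h2 h3⟩

/-- One factor less. -/
theorem Pr.less : ∀ (m : ℕ) (e : (V ≃ᵃ[ℂ] V) → V → ℂ), Pr Γ (m + 1) e → Pr Γ m e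
  | 0, _, ⟨_, _, ⟨_, h1⟩, ⟨_, h2⟩, h3⟩ => ⟨_, h1.mulp h2 h3⟩
  | m + 1, _, ⟨e₁, e₂, h1, h2, h3⟩ => ⟨e₁, e₂, Pr.less m e₁ h1, h2, h3⟩

theorem Pr.lesss {m n : ℕ} (hmn : m ≤ n) {e : (V ≃ᵃ[ℂ] V) → V → ℂ} (h : Pr Γ n e) :
    Pr Γ m e := by
  induction n, hmn using Nat.le_induction with
  | base => exact h
  | succ n _ ih => exact ih (Pr.less n e h)

theorem PD.ne {e : (V ≃ᵃ[ℂ] V) → V → ℂ} {H : V → V → ℂ} (h : PD Γ e H) {γ : V ≃ᵃ[ℂ] V}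
    (hγ : γ ∈ Γ) (z : V) : e γ z ≠ 0 := by
  obtain ⟨c, hc, h1⟩ := h.eq γ hγ
  rw [h1]
  refine mul_ne_zero (fun h0 => ?_) (Complex.exp_ne_zero _)
  rw [h0, norm_zero] at hc
  exact zero_ne_one hc

/-- The ratio of the values at two points. -/
theorem PD.ratio {e : (V ≃ᵃ[ℂ] V) → V → ℂ} {H : V → V → ℂ} (h : PD Γ e H) {γ : V ≃ᵃ[ℂ] V}
    (hγ : γ ∈ Γ) (z w : V) :
    e γ (z + w) = e γ z * Complex.exp (Real.pi * H (γ.linear w) (γ 0)) := by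
  obtain ⟨c, hc, h1⟩ := h.eq γ hγ
  rw [h1, h1, mul_assoc, ← Complex.exp_add]
  congr 2
  rw [lex, lex, map_add, h.herm.add_left]
  ring

theorem PD.holo [FiniteDimensional ℂ V] {e : (V ≃ᵃ[ℂ] V) → V → ℂ} {H : V → V → ℂ}
    (h : PD Γ e H) {γ : V ≃ᵃ[ℂ] V} (hγ : γ ∈ Γ) : Differentiable ℂ fun z => e γ z := by
  obtain ⟨c, hc, h1⟩ := h.eq γ hγ
  have h2 : (fun z => e γ z) = fun z => c * Complex.exp (lex H (γ 0) (γ.linear z)) := funext h1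
  rw [h2]
  have h3 : Differentiable ℂ fun z => lex H (γ 0) (γ.linear z) := by
    have h4 : Differentiable ℂ fun z => H (γ.linear z) (γ 0) :=
      (herm_holo h.herm (γ 0)).comp
        (LinearMap.toContinuousLinearMap (γ.linear : V →ₗ[ℂ] V)).differentiable
    exact (h4.const_mul _).add_const _
  exact (h3.cexp).const_mul c

theorem PD.one {e : (V ≃ᵃ[ℂ] V) → V → ℂ} {H : V → V → ℂ} (h : PD Γ e H) (z : V) :
    e 1 z = 1 := by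
  have h1 := h.mul 1 Γ.one_mem 1 Γ.one_mem z
  rw [mul_one] at h1
  have h2 : (1 : V ≃ᵃ[ℂ] V) z = z := rfl
  rw [h2] at h1
  exact (mul_left_cancel₀ (h.ne Γ.one_mem z) (by rw [mul_one]; exact h1)).symm

end Q36.HV
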