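import Pool.Agent.Q36.HV.A

/-!
# Duality of lattices
-/

set_option autoImplicit false

namespace Q36.HV

open Pool.Agent.W594.SYZ2 Pool.Agent.W594.SYZ2.TQ Q47.FJ

variable {V : Type*} [NormedAddCommGroup V] [NormedSpace ℂ V] [FiniteDimensional ℂ V]
  {H : V → V → ℂ}

/-- The real linear functional `Im H(x, ·)`. -/
noncomputable def imH (hH : IsHermitian H) : V →ₗ[ℝ] Module.Dual ℝ V where
  toFun x :=
    { toFun := fun y => (H x y).im
      map_add' := fun y z => by rw [h_add_right hH, Complex.add_im]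
      map_smul' := fun t y => by
        rw [← Complex.coe_smul, h_smul_right hH, Complex.conj_ofReal, Complex.im_ofReal_mul]
        rfl }
  map_add' x y := by
    ext z
    change (H (x + y) z).im = (H x z).im + (H y z).im
    rw [hH.add_left, Complex.add_im]
  map_smul' t x := by
    ext z
    change (H (t • x) z).im = t * (H x z).im
    rw [re_smul_eq hH]

theorem imH_surj (hH : IsHermitian H) (hp : IsPositiveForm H) :
    Function.Surjective (imH hH) := by
  have : FiniteDimensional ℝ V := FiniteDimensional.complexToReal V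
  have h1 : Module.finrank ℝ V = Module.finrank ℝ (Module.Dual ℝ V) :=
    Subspace.dual_finrank_eq.symm
  rw [← LinearMap.injective_iff_surjective_of_finrank_eq_finrank h1, ← LinearMap.ker_eq_bot,
    LinearMap.ker_eq_bot']
  intro x hx
  by_contra hne
  have h2 : (H x (Complex.I • x)).im = 0 := LinearMap.congr_fun hx (Complex.I • x)
  rw [h_smul_right hH, Complex.conj_I] at h2
  have h3 := hp x hne
  have h4 : (-Complex.I * H x x).im = -(H x x).re := by simp
  rw [h4] at h2
  linarith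

/-- A lattice is its own bidual. -/
theorem dual_mem (M : AddSubgroup V) (hd : DiscreteTopology M)
    (hs : Submodule.span ℝ (M : Set V) = ⊤) (hH : IsHermitian H) (hp : IsPositiveForm H) {y : V}
    (h : ∀ x, (∀ m ∈ M, ∃ n : ℤ, (H x m).im = n) → ∃ n : ℤ, (H x y).im = n) : y ∈ M := by
  have : FiniteDimensional ℝ V := FiniteDimensional.complexToReal V
  let L : Submodule ℤ V := M.toIntSubmodule
  have : DiscreteTopology L := hd
  have : IsZLattice ℝ L := ⟨hs⟩
  have : Module.Finite ℤ L := ZLattice.module_finite ℝ L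
  have : Module.Free ℤ L := ZLattice.module_free ℝ L
  let b := Module.Free.chooseBasis ℤ L
  let B := b.ofZLatticeBasis ℝ L
  have hB : ∀ i, B i = (b i : V) := fun i => b.ofZLatticeBasis_apply ℝ L i
  have hc : ∀ i, ∃ n : ℤ, B.repr y i = n := by
    intro i
    obtain ⟨x, hx⟩ := imH_surj hH hp (B.coord i)
    have hx' : ∀ z, (H x z).im = B.repr z i := fun z => by
      have h1 := LinearMap.congr_fun hx z
      exact h1
    obtain ⟨n, hn⟩ := h x fun m hm => by
      refine ⟨b.repr ⟨m, hm⟩ i, ?_⟩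
      rw [hx']
      exact (b.ofZLatticeBasis_repr_apply ℝ L ⟨m, hm⟩ i)
    exact ⟨n, by rw [← hx', hn]⟩
  choose n hn using hc
  have h1 : y = ∑ i, B.repr y i • B i := (B.sum_repr y).symm
  rw [h1]
  refine M.sum_mem fun i _ => ?_
  rw [hn, hB, Int.cast_smul_eq_zsmul]
  exact M.zsmul_mem (b i).2 _

variable {Γ : Subgroup (V ≃ᵃ[ℂ] V)} [Fintype (Lin Γ)]

/-- The duality for the lattices of invariant vectors. -/
theorem dual_S (hΓ : IsTorusQuotient Γ) (hH : IsHermitian H) (hp : IsPositiveForm H)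
    (M : AddSubgroup V) (h1 : ∀ m ∈ M, SS Γ m = Fintype.card (Lin Γ) • m)
    (h2 : ∀ m ∈ M, Fintype.card (Lin Γ) • m ∈ latt Γ) (h3 : ∀ b ∈ latt Γ, SS Γ b ∈ M) {y : V}
    (hy : SS Γ y = Fintype.card (Lin Γ) • y)
    (h : ∀ x, (∀ m ∈ M, ∃ n : ℤ, (H x m).im = n) → ∃ n : ℤ, (H x y).im = n) : y ∈ M := by
  set N := Fintype.card (Lin Γ) with hN
  have hN0 : N ≠ 0 := Fintype.card_ne_zero
  have hNc : (N : ℂ) ≠ 0 := by exact_mod_cast hN0
  let ψ : V →+ V := (N • AddMonoidHom.id V) - (SS Γ).toAddMonoidHom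
  have hψ : ∀ v, ψ v = N • v - SS Γ v := fun v => rfl
  let M' : AddSubgroup V := M ⊔ (latt Γ).map ψ
  have hM' : ∀ v ∈ M', N • v ∈ latt Γ := by
    intro v hv
    obtain ⟨m, hm, c, hc, rfl⟩ := AddSubgroup.mem_sup.1 hv
    obtain ⟨b, hb, rfl⟩ := hc
    rw [smul_add, hψ]
    exact (latt Γ).add_mem (h2 m hm) ((latt Γ).nsmul_mem ((latt Γ).sub_mem
      ((latt Γ).nsmul_mem hb N) (SS_latt hb)) N)
  have hinj : ∀ a b : V, N • a = N • b → a = b := by
    intro a b hab
    rw [← Nat.cast_smul_eq_nsmul ℂ, ← Nat.cast_smul_eq_nsmul ℂ N b] at hab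
    exact smul_right_injective V hNc hab
  have hd : DiscreteTopology M' := by
    have := hΓ.discrete
    let f : M' → latt Γ := fun v => ⟨N • (v : V), hM' v v.2⟩
    refine DiscreteTopology.of_continuous_injective (f := f) ?_ ?_
    · refine Continuous.subtype_mk ?_ _
      exact continuous_subtype_val.const_smul N
    · intro a b hab
      exact Subtype.ext (hinj _ _ (congrArg Subtype.val hab))
  have hs : Submodule.span ℝ (M' : Set V) = ⊤ := by
    rw [eq_top_iff, ← hΓ.span_top, Submodule.span_le]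
    intro b hb
    have h4 : N • b ∈ M' := by
      have h5 : N • b = SS Γ b + ψ b := by rw [hψ]; abel
      rw [h5]
      exact AddSubgroup.add_mem_sup (h3 b hb) ⟨b, hb, rfl⟩
    have h5 : (N : ℝ)⁻¹ • (N • b) ∈ Submodule.span ℝ (M' : Set V) :=
      Submodule.smul_mem _ _ (Submodule.subset_span h4)
    rw [← Nat.cast_smul_eq_nsmul ℝ, smul_smul, inv_mul_cancel₀ (by exact_mod_cast hN0),
      one_smul] at h5
    exact h5
  have hy' : y ∈ M' := dual_mem M' hd hs hH hp fun x hx =>
    h x fun m hm => hx m (AddSubgroup.mem_sup_left hm)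
  obtain ⟨m, hm, c, ⟨b, hb, rfl⟩, hmc⟩ := AddSubgroup.mem_sup.1 hy'
  have h4 : SS Γ y = N • m := by
    rw [← hmc, map_add, h1 m hm, hψ, map_sub, map_nsmul, SS_SS, sub_self, add_zero]
  rw [hy] at h4
  rw [hinj _ _ h4]
  exact hm

end Q36.HV
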