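import Pool.Agent.Q36.HV.B

/-!
# Averages and characters
-/

set_option autoImplicit false

namespace Q36.HV

open Pool.Agent.W594.SYZ2 Pool.Agent.W594.SYZ2.TQ Q47.FJ

variable {V : Type*} [NormedAddCommGroup V] [NormedSpace ℂ V]
  {Γ : Subgroup (V ≃ᵃ[ℂ] V)} {e Q : (V ≃ᵃ[ℂ] V) → V → ℂ} {H : V → V → ℂ}

/-- The character given by an invariant vector. -/
noncomputable def psi (H : V → V → ℂ) (b : V) (γ : V ≃ᵃ[ℂ] V) : ℂ :=
  Complex.exp (Real.pi * (H b (γ 0) - H (γ 0) b))

theorem exp_norm (hH : IsHermitian H) (b c : V) :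
    ‖Complex.exp (Real.pi * (H b c - H c b))‖ = 1 := by
  rw [Complex.norm_exp, Real.exp_eq_one_iff, Complex.re_ofReal_mul, Complex.sub_re,
    h_re_symm hH b c, sub_self, mul_zero]

theorem exp_one (hH : IsHermitian H) (b c : V) :
    Complex.exp (Real.pi * (H b c - H c b)) = 1 ↔ ∃ n : ℤ, (H b c).im = n := by
  have h1 : (Real.pi * (H b c - H c b) : ℂ) = (H b c).im * (2 * Real.pi * Complex.I) := by
    have h2 : H b c - H c b = 2 * Complex.I * (H b c).im := by
      rw [hH.symm b c]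
      apply Complex.ext
      · simp
      · simp
        ring
    rw [h2]
    ring
  rw [h1, Complex.exp_eq_one_iff]
  have h3 : (2 * Real.pi * Complex.I : ℂ) ≠ 0 := by simp [Real.pi_ne_zero]
  constructor
  · rintro ⟨n, hn⟩
    exact ⟨n, by exact_mod_cast mul_right_cancel₀ h3 hn⟩
  · rintro ⟨n, hn⟩
    exact ⟨n, by rw [hn]; push_cast; rfl⟩

theorem psi_uch (h : PD Γ Q H) {b : V} (hb : ∀ γ ∈ Γ, γ.linear b = b) : Uch Γ (psi H b) where
  norm γ _ := exp_norm h.herm _ _
  mul γ hγ δ hδ := by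
    rw [psi, psi, psi, ← Complex.exp_add, mul_zero_pt]
    congr 1
    have h1 := h.inv γ hγ b (δ 0)
    have h2 := h.inv γ hγ (δ 0) b
    rw [hb γ hγ] at h1 h2
    rw [h_add_right h.herm, h.herm.add_left, h1, h2]
    ring

/-- Translations by invariant vectors. -/
theorem trans_back [FiniteDimensional ℂ V] (h : PD Γ Q H) {b : V}
    (hb : ∀ γ ∈ Γ, γ.linear b = b) {k : V → ℂ} (hk : Sec Γ (twi Q (psi H b)) k) :
    Sec Γ Q fun z => k (z - b) * Complex.exp (Real.pi * H z b) where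
  holo := by
    have h1 : Differentiable ℂ fun z => k (z - b) := hk.holo.comp (differentiable_id.sub_const b)
    exact h1.mul ((herm_holo h.herm b).const_mul _).cexp
  eq γ hγ z := by
    have h1 : γ z - b = γ (z - b) := by
      have h2 := act_add γ (z - b) b
      rw [sub_add_cancel, hb γ hγ] at h2
      rw [h2, add_sub_cancel_right]
    have h3 := h.ratio hγ z (-b)
    rw [map_neg, hb γ hγ, h_neg_left h.herm, ← sub_eq_add_neg] at h3
    have h4 : H (γ z) b = H z b + H (γ 0) b := by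
      rw [act γ z, h.herm.add_left]
      congr 1
      have h5 := h.inv γ hγ z b
      rwa [hb γ hγ] at h5
    rw [h1, hk.eq γ hγ, twi, h3, psi, h4]
    have h6 : Complex.exp (Real.pi * -H b (γ 0)) *
        Complex.exp (Real.pi * (H b (γ 0) - H (γ 0) b)) *
        Complex.exp (Real.pi * (H z b + H (γ 0) b)) = Complex.exp (Real.pi * H z b) := by
      rw [← Complex.exp_add, ← Complex.exp_add]
      congr 1
      ring
    linear_combination Q γ z * k (z - b) * h6

/-- The quotients only depend on the linear part. -/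
theorem q_congr (h : PD Γ e H) {f : V → ℂ} (hf : Sec (tra Γ) e f) {γ δ : V ≃ᵃ[ℂ] V}
    (hγ : γ ∈ Γ) (hδ : δ ∈ Γ) (hl : γ.linear = δ.linear) (z : V) :
    f (γ z) / e γ z = f (δ z) / e δ z := by
  have h1 : γ * δ⁻¹ ∈ tra Γ := by
    refine mem_tra.2 ⟨Γ.mul_mem hγ (Γ.inv_mem hδ), fun v => ?_⟩
    change γ.linear (δ.linear.symm v) = v
    rw [hl]
    exact δ.linear.apply_symm_apply v
  have h2 : γ = (γ * δ⁻¹) * δ := by rw [inv_mul_cancel_right]
  have h3 : γ z = (γ * δ⁻¹) (δ z) := by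
    conv_lhs => rw [h2]
    rfl
  have h4 : e γ z = e (γ * δ⁻¹) (δ z) * e δ z := by
    conv_lhs => rw [h2]
    exact h.mul _ h1.1 δ hδ z
  rw [h3, h4, hf.eq _ h1, mul_div_mul_left _ _ (h.ne h1.1 _)]

/-- Representatives. -/
noncomputable def rp (g : Lin Γ) : V ≃ᵃ[ℂ] V := (mem_Lin.1 g.2).choose

theorem rp_mem (g : Lin Γ) : rp g ∈ Γ := (mem_Lin.1 g.2).choose_spec.1

theorem rp_lin (g : Lin Γ) : (rp g).linear = g.1 := (mem_Lin.1 g.2).choose_spec.2

section Avg

variable [Fintype (Lin Γ)]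

/-- The average. -/
noncomputable def avg (Γ : Subgroup (V ≃ᵃ[ℂ] V)) [Fintype (Lin Γ)] (e : (V ≃ᵃ[ℂ] V) → V → ℂ)
    (f : V → ℂ) (z : V) : ℂ := ∑ g : Lin Γ, f (rp g z) / e (rp g) z

variable [FiniteDimensional ℂ V]

omit [Fintype (Lin Γ)] in
theorem q_holo (h : PD Γ e H) {f : V → ℂ} (hf : Differentiable ℂ f) {γ : V ≃ᵃ[ℂ] V}
    (hγ : γ ∈ Γ) : Differentiable ℂ fun z => f (γ z) / e γ z := by
  have h1 : Differentiable ℂ fun z => f (γ z) :=
    hf.comp (Pool.Agent.TH735.AQ.affine_differentiable γ)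
  simp only [div_eq_mul_inv]
  exact h1.mul ((h.holo hγ).inv fun z => h.ne hγ z)

theorem avg_holo (h : PD Γ e H) {f : V → ℂ} (hf : Differentiable ℂ f) :
    Differentiable ℂ (avg Γ e f) := by
  have h1 : avg Γ e f = fun z => ∑ g : Lin Γ, f (rp g z) / e (rp g) z := rfl
  rw [h1]
  exact Differentiable.fun_sum fun g _ => q_holo h hf (rp_mem g)

theorem avg_sec (h : PD Γ e H) {f : V → ℂ} (hf : Sec (tra Γ) e f) : Sec Γ e (avg Γ e f) := by
  refine ⟨avg_holo h hf.holo, fun δ hδ z => ?_⟩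
  rw [avg, avg, Finset.mul_sum]
  let d : Lin Γ := ⟨δ.linear, δ, hδ, rfl⟩
  refine Fintype.sum_equiv (Equiv.mulRight d) _ _ fun g => ?_
  have h1 := q_congr h hf (Γ.mul_mem (rp_mem g) hδ) (rp_mem (g * d)) (by
    rw [rp_lin]
    have h2 : (rp g * δ).linear = (rp g).linear * δ.linear := rfl
    rw [h2, rp_lin]
    rfl) z
  have h3 : (rp g * δ) z = rp g (δ z) := rfl
  rw [h.mul _ (rp_mem g) δ hδ, h3] at h1
  change _ = e δ z * (f (rp (g * d) z) / e (rp (g * d)) z)
  rw [← h1]
  have h4 := h.ne hδ z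
  have h5 := h.ne (rp_mem g) (δ z)
  field_simp

end Avg

/-- Entire functions. -/
def Ent (V : Type*) [NormedAddCommGroup V] [NormedSpace ℂ V] : Submodule ℂ (V → ℂ) where
  carrier := {f | Differentiable ℂ f}
  zero_mem' := differentiable_const (0 : ℂ)
  add_mem' := fun hf hg => hf.add hg
  smul_mem' := fun c _ hf => hf.const_smul c

variable [Fintype (Lin Γ)] [FiniteDimensional ℂ V]

/-- A linear functional which kills the sections of all twists kills the sections for `alb Γ`. -/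
theorem fou (hΓ : IsTorusQuotient Γ) (h : PD Γ Q H) (E : Ent V →ₗ[ℂ] ℂ)
    (hE : ∀ x k, (hk : Sec Γ (twi Q (psi H (SS Γ x))) k) → E ⟨k, hk.holo⟩ = 0) {f : V → ℂ}
    (hf : Sec (alb Γ) Q f) : E ⟨f, hf.holo⟩ = 0 := by
  classical
  have hft : Sec (tra Γ) Q f := hf.mono tra_le_alb
  let B : AddSubgroup V :=
    { carrier := {x | ∀ b ∈ latt Γ, ∃ n : ℤ, (H x (SS Γ b)).im = n}
      zero_mem' := fun b _ => ⟨0, by rw [h_zero_left h.herm, Complex.zero_im, Int.cast_zero]⟩
      add_mem' := by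
        intro x y hx hy b hb
        obtain ⟨n, hn⟩ := hx b hb
        obtain ⟨m, hm⟩ := hy b hb
        exact ⟨n + m, by rw [h.herm.add_left, Complex.add_im, hn, hm, Int.cast_add]⟩
      neg_mem' := by
        intro x hx b hb
        obtain ⟨n, hn⟩ := hx b hb
        exact ⟨-n, by rw [h_neg_left h.herm, Complex.neg_im, hn, Int.cast_neg]⟩ }
  have hpsi : ∀ x γ, psi H (SS Γ x) γ =
      Complex.exp (Real.pi * (H x (SS Γ (γ 0)) - H (SS Γ (γ 0)) x)) := fun x γ => by
    rw [psi, SS_adj h.herm h.inv, ← SS_adj h.herm h.inv (γ 0) x]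
  let c : Lin Γ → Multiplicative B →* ℂ := fun g =>
    { toFun := fun x => (psi H (SS Γ (Multiplicative.toAdd x : B)) (rp g))⁻¹
      map_one' := by
        change (psi H (SS Γ (0 : V)) (rp g))⁻¹ = 1
        rw [map_zero, psi, h_zero_left h.herm, h_zero_right h.herm, sub_zero, mul_zero,
          Complex.exp_zero, inv_one]
      map_mul' := fun x y => by
        change (psi H (SS Γ ((Multiplicative.toAdd x : B) + (Multiplicative.toAdd y : B) : V))
          (rp g))⁻¹ = _
        rw [← mul_inv, psi, psi, psi, ← Complex.exp_add, map_add, h.herm.add_left,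
          h_add_right h.herm]
        congr 2
        ring }
  let F : Lin Γ → Ent V := fun g => ⟨fun z => f (rp g z) / Q (rp g) z,
    q_holo h hf.holo (rp_mem g)⟩
  have h1 : ∀ x : Multiplicative B, ∑ g : Lin Γ, E (F g) * c g x = 0 := by
    intro x
    set y : V := ((Multiplicative.toAdd x : B) : V) with hy
    have hyB : ∀ b ∈ latt Γ, ∃ n : ℤ, (H y (SS Γ b)).im = n := (Multiplicative.toAdd x).2
    have hfix : ∀ γ ∈ Γ, γ.linear (SS Γ y) = SS Γ y := fun γ hγ => lin_SS hγ y
    have h2 : PD Γ (twi Q (psi H (SS Γ y))) H := h.twi (psi_uch h hfix)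
    have h3 : Sec (tra Γ) (twi Q (psi H (SS Γ y))) f := by
      refine ⟨hf.holo, fun γ hγ z => ?_⟩
      have h4 : psi H (SS Γ y) γ = 1 := by
        rw [hpsi, exp_one h.herm]
        exact hyB _ (latt_of_tra hγ)
      rw [twi, h4, mul_one]
      exact hft.eq γ hγ z
    have h4 := avg_sec h2 h3
    have h5 := hE y _ h4
    have h6 : (⟨_, h4.holo⟩ : Ent V) = ∑ g : Lin Γ, c g x • F g := by
      apply Subtype.ext
      rw [Submodule.coe_sum]
      funext z
      rw [Finset.sum_apply]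
      change avg Γ _ f z = _
      rw [avg]
      refine Finset.sum_congr rfl fun g _ => ?_
      change f (rp g z) / (Q (rp g) z * psi H (SS Γ y) (rp g)) =
        (psi H (SS Γ y) (rp g))⁻¹ * (f (rp g z) / Q (rp g) z)
      have h7 := (psi_uch h hfix).ne (rp_mem g)
      have h8 := h.ne (rp_mem g) z
      field_simp
    rw [h6, map_sum] at h5
    rw [← h5]
    refine Finset.sum_congr rfl fun g _ => ?_
    rw [map_smul, smul_eq_mul, mul_comm]
  have h2 : ∑ g ∈ Finset.univ.filter (fun g => c g = 1), E (F g) = 0 := by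
    have hli := linearIndependent_monoidHom (Multiplicative B) ℂ
    rw [linearIndependent_iff'] at hli
    by_cases h1c : (1 : Multiplicative B →* ℂ) ∈ Finset.univ.image c
    · refine hli (Finset.univ.image c)
        (fun χ => ∑ g ∈ Finset.univ.filter (fun g => c g = χ), E (F g)) ?_ 1 h1c
      funext x
      rw [Finset.sum_apply]
      have h3 : ∀ χ ∈ Finset.univ.image c,
          ((∑ g ∈ Finset.univ.filter (fun g => c g = χ), E (F g)) • (χ : Multiplicative B → ℂ)) x
            = ∑ g ∈ Finset.univ.filter (fun g => c g = χ), E (F g) * c g x := by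
        intro χ _
        rw [Pi.smul_apply, smul_eq_mul, Finset.sum_mul]
        refine Finset.sum_congr rfl fun g hg => ?_
        rw [(Finset.mem_filter.1 hg).2]
      rw [Finset.sum_congr rfl h3]
      have h4 := Finset.sum_fiberwise_of_maps_to (s := (Finset.univ : Finset (Lin Γ)))
        (t := Finset.univ.image c) (g := c) (fun g hg => Finset.mem_image_of_mem c hg)
        (fun g => E (F g) * c g x)
      rw [h4]
      exact h1 x
    · refine Finset.sum_eq_zero fun g hg => ?_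
      exact absurd (Finset.mem_image.2 ⟨g, Finset.mem_univ g, (Finset.mem_filter.1 hg).2⟩) h1c
  have h3 : ∀ g ∈ Finset.univ.filter (fun g => c g = 1), E (F g) = E ⟨f, hf.holo⟩ := by
    intro g hg
    have hg1 : c g = 1 := (Finset.mem_filter.1 hg).2
    have h4 : SS Γ (rp g 0) ∈ (latt Γ).map (SS Γ).toAddMonoidHom := by
      refine dual_S hΓ h.herm h.pos ((latt Γ).map (SS Γ).toAddMonoidHom) ?_ ?_
        (fun b hb => ⟨b, hb, rfl⟩) (SS_SS _) ?_
      · rintro _ ⟨b, _, rfl⟩
        exact SS_SS b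
      · rintro _ ⟨b, hb, rfl⟩
        exact (latt Γ).nsmul_mem (SS_latt hb) _
      · intro x hx
        have hxB : x ∈ B := fun b hb => hx _ ⟨b, hb, rfl⟩
        have h5 : (psi H (SS Γ x) (rp g))⁻¹ = 1 :=
          DFunLike.congr_fun hg1 (Multiplicative.ofAdd (⟨x, hxB⟩ : B))
        rw [inv_eq_one, hpsi, exp_one h.herm] at h5
        exact h5
    obtain ⟨b, hb, hbe⟩ := h4
    have h5 : rp g ∈ alb Γ := mem_alb.2 ⟨rp_mem g, b, hb, hbe.symm⟩
    congr 1
    apply Subtype.ext
    funext z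
    change f (rp g z) / Q (rp g) z = f z
    rw [hf.eq _ h5, mul_div_cancel_left₀ _ (h.ne (rp_mem g) z)]
  rw [Finset.sum_congr rfl h3, Finset.sum_const, nsmul_eq_mul] at h2
  refine (mul_eq_zero.1 h2).resolve_left (Nat.cast_ne_zero.2 (Finset.card_ne_zero_of_mem
    (a := (1 : Lin Γ)) (Finset.mem_filter.2 ⟨Finset.mem_univ _, ?_⟩)))
  ext x
  change (psi H (SS Γ (Multiplicative.toAdd x : B)) (rp 1))⁻¹ = 1
  rw [inv_eq_one, hpsi, exp_one h.herm]
  refine (Multiplicative.toAdd x).2 _ (latt_of_tra (mem_tra.2 ⟨rp_mem _, fun v => ?_⟩))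
  rw [rp_lin]
  rfl

/-- There are sections which do not vanish on the leaf through `z`. -/
theorem leaf (hΓ : IsTorusQuotient Γ) (h : PD Γ Q H) (hg : G1 (alb Γ) Q) (z : V) :
    ∃ k, Sec Γ Q k ∧ ∃ v, k (z + SS Γ v) ≠ 0 := by
  by_contra hcon
  push Not at hcon
  obtain ⟨f, hf, hfz⟩ := hg z
  let E : Ent V →ₗ[ℂ] ℂ :=
    { toFun := fun f => f.1 z
      map_add' := fun _ _ => rfl
      map_smul' := fun _ _ => rfl }
  refine hfz (fou hΓ h E (fun x k hk => ?_) hf)
  have h1 := trans_back h (fun γ hγ => lin_SS hγ x) hk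
  have h2 := hcon _ h1 x
  beta_reduce at h2
  rw [add_sub_cancel_right] at h2
  exact (mul_eq_zero.1 h2).resolve_right (Complex.exp_ne_zero _)

end Q36.HV
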