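import Pool.Agent.Q47.FJ.Main
import Pool.Agent.TH735.AQ.Nec

/-!
# Quotients of complex tori by free actions: definitions

`X = V / Γ`, where `Γ` is a group of affine transformations of `V` with a full lattice `latt Γ` of
translations and with finitely many linear parts (`IsTorusQuotient` of
`Pool.Agent.W594.SYZ.Defs2`), which acts freely on `V`.
-/

set_option autoImplicit false

namespace Q36.HV

open Pool.Agent.W594.SYZ2 Pool.Agent.W594.SYZ2.TQ Q47.FJ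

variable {V : Type*} [NormedAddCommGroup V] [NormedSpace ℂ V]

/-- The complex manifold `V / Γ`, with the chart `V` and the transition maps `γ ∈ Γ`. -/
def quot (Γ : Subgroup (V ≃ᵃ[ℂ] V)) [FiniteDimensional ℂ V] : Atlas V Unit Γ where
  U _ := Set.univ
  isOpen_U _ := isOpen_univ
  s _ := ()
  t _ := ()
  D _ := Set.univ
  isOpen_D _ := isOpen_univ
  sub _ := Set.subset_univ _
  φ γ z := (γ : V ≃ᵃ[ℂ] V) z
  holo γ := (Pool.Agent.TH735.AQ.affine_differentiable (γ : V ≃ᵃ[ℂ] V)).differentiableOn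
  maps _ _ _ := Set.mem_univ _
  refl _ _ _ := ⟨1, rfl, rfl, Set.mem_univ _, rfl⟩
  symm γ z _ := ⟨γ⁻¹, rfl, rfl, Set.mem_univ _, (γ : V ≃ᵃ[ℂ] V).symm_apply_apply z⟩
  trans γ δ _ _ _ _ := ⟨δ * γ, rfl, rfl, Set.mem_univ _, rfl⟩

/-- The hermitian form `H` is the first Chern form of the line bundle `M` on `V / Γ`: for some
holomorphic function `F` on `V`, `|s(z)|² exp (- π H(z,z) - 2 Re F(z))` defines a hermitian metric on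
`M` (its curvature is the constant form given by `H`). Each line bundle on `V / Γ` has a Chern
form. -/
def IsChern [FiniteDimensional ℂ V] {Γ : Subgroup (V ≃ᵃ[ℂ] V)} (M : LB (quot Γ))
    (H : V → V → ℂ) : Prop :=
  IsHermitian H ∧ ∃ F : V → ℂ, Differentiable ℂ F ∧ ∀ (γ : Γ) (z : V),
    ‖ev M γ z‖ ^ 2 = Real.exp (Real.pi * (H ((γ : V ≃ᵃ[ℂ] V) z) ((γ : V ≃ᵃ[ℂ] V) z)).re
      + 2 * (F ((γ : V ≃ᵃ[ℂ] V) z)).re - (Real.pi * (H z z).re + 2 * (F z).re))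

/-- The subspace of `V` spanned by the `g v - v`, `g` a linear part of `Γ`. -/
def coinv (Γ : Subgroup (V ≃ᵃ[ℂ] V)) : Submodule ℂ V :=
  Submodule.span ℂ {v | ∃ γ ∈ Γ, ∃ w, v = γ.linear w - w}

theorem coinv_mem {Γ : Subgroup (V ≃ᵃ[ℂ] V)} {γ : V ≃ᵃ[ℂ] V} (hγ : γ ∈ Γ) (w : V) :
    γ.linear w - w ∈ coinv Γ := Submodule.subset_span ⟨γ, hγ, w, rfl⟩

theorem mul_zero_pt (γ δ : V ≃ᵃ[ℂ] V) : (γ * δ) 0 = γ.linear (δ 0) + γ 0 := act γ (δ 0)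

theorem inv_zero_pt (γ : V ≃ᵃ[ℂ] V) : (γ⁻¹) 0 = -((γ⁻¹).linear (γ 0)) := by
  have h1 : (γ⁻¹) (γ 0) = 0 := γ.symm_apply_apply 0
  rw [act (γ⁻¹) (γ 0)] at h1
  exact (neg_eq_of_add_eq_zero_right h1).symm

/-- The fundamental group of the fibres of the Albanese map of `V / Γ`, followed by the torus
quotients `V → (V / latt Γ)`: the `γ ∈ Γ` which act on `V / coinv Γ` as translations by vectors in the
image of the lattice `latt Γ`. -/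
def alb (Γ : Subgroup (V ≃ᵃ[ℂ] V)) : Subgroup (V ≃ᵃ[ℂ] V) where
  carrier := {γ | γ ∈ Γ ∧ ∃ b ∈ latt Γ, γ 0 - b ∈ coinv Γ}
  one_mem' := ⟨Γ.one_mem, 0, (latt Γ).zero_mem, by
    rw [sub_zero]
    exact (coinv Γ).zero_mem⟩
  mul_mem' := by
    rintro γ δ ⟨hγ, b, hb, h1⟩ ⟨hδ, c, hc, h2⟩
    refine ⟨Γ.mul_mem hγ hδ, b + c, (latt Γ).add_mem hb hc, ?_⟩
    have h3 : (γ * δ) 0 - (b + c) = (γ 0 - b) + (δ 0 - c) + (γ.linear (δ 0) - δ 0) := by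
      rw [mul_zero_pt]
      abel
    rw [h3]
    exact (coinv Γ).add_mem ((coinv Γ).add_mem h1 h2) (coinv_mem hγ _)
  inv_mem' := by
    rintro γ ⟨hγ, b, hb, h1⟩
    refine ⟨Γ.inv_mem hγ, -b, (latt Γ).neg_mem hb, ?_⟩
    have h3 : (γ⁻¹) 0 - (-b) = -(((γ⁻¹).linear (γ 0) - γ 0) + (γ 0 - b)) := by
      rw [inv_zero_pt]
      abel
    rw [h3]
    exact (coinv Γ).neg_mem ((coinv Γ).add_mem (coinv_mem (Γ.inv_mem hγ) _) h1)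

theorem alb_le (Γ : Subgroup (V ≃ᵃ[ℂ] V)) : alb Γ ≤ Γ := fun _ h => h.1

/-- All elements of `Γ` are translations. -/
def AreTranslations (Γ : Subgroup (V ≃ᵃ[ℂ] V)) : Prop := ∀ γ ∈ Γ, ∀ v, γ.linear v = v

/-- The factor of automorphy `e`, restricted to `Γ`, has sections `f`. -/
structure Sec (Γ : Subgroup (V ≃ᵃ[ℂ] V)) (e : (V ≃ᵃ[ℂ] V) → V → ℂ) (f : V → ℂ) : Prop where
  holo : Differentiable ℂ f
  eq : ∀ γ ∈ Γ, ∀ z, f (γ z) = e γ z * f z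

/-- The factor of automorphy `e` on `Γ` is normalised, with the positive Chern form `H`. -/
structure PD (Γ : Subgroup (V ≃ᵃ[ℂ] V)) (e : (V ≃ᵃ[ℂ] V) → V → ℂ) (H : V → V → ℂ) : Prop where
  herm : IsHermitian H
  pos : IsPositiveForm H
  inv : ∀ γ ∈ Γ, ∀ v w, H (γ.linear v) (γ.linear w) = H v w
  mul : ∀ γ ∈ Γ, ∀ δ ∈ Γ, ∀ z, e (γ * δ) z = e γ (δ z) * e δ z
  eq : ∀ γ ∈ Γ, ∃ c : ℂ, ‖c‖ = 1 ∧ ∀ z, e γ z = c * Complex.exp (lex H (γ 0) (γ.linear z))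

/-- Globally generated. -/
def G1 (Γ : Subgroup (V ≃ᵃ[ℂ] V)) (e : (V ≃ᵃ[ℂ] V) → V → ℂ) : Prop :=
  ∀ z, ∃ f, Sec Γ e f ∧ f z ≠ 0

/-- Very ample. -/
structure V1 (Γ : Subgroup (V ≃ᵃ[ℂ] V)) (e : (V ≃ᵃ[ℂ] V) → V → ℂ) : Prop where
  gg : G1 Γ e
  pts : ∀ z z', (∀ f, Sec Γ e f → f z = 0 → f z' = 0) → ∃ γ ∈ Γ, γ z = z'
  tan : ∀ z w, (∀ f, Sec Γ e f → f z = 0 → fderiv ℂ f z w = 0) → w = 0

/-- Unitary characters. -/
structure Uch (Γ : Subgroup (V ≃ᵃ[ℂ] V)) (χ : (V ≃ᵃ[ℂ] V) → ℂ) : Prop where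
  norm : ∀ γ ∈ Γ, ‖χ γ‖ = 1
  mul : ∀ γ ∈ Γ, ∀ δ ∈ Γ, χ (γ * δ) = χ γ * χ δ

/-- Products of `m + 1` positive factors. -/
def Pr (Γ : Subgroup (V ≃ᵃ[ℂ] V)) : ℕ → ((V ≃ᵃ[ℂ] V) → V → ℂ) → Prop
  | 0, e => ∃ H, PD Γ e H
  | m + 1, e => ∃ e₁ e₂, Pr Γ m e₁ ∧ (∃ H, PD Γ e₂ H) ∧ ∀ γ ∈ Γ, ∀ z, e γ z = e₁ γ z * e₂ γ z

end Q36.HV
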