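import Pool.Agent.Q36.HV.C

/-!
# The cross relations
-/

set_option autoImplicit false

namespace Q36.HV

open Pool.Agent.W594.SYZ2 Pool.Agent.W594.SYZ2.TQ Q47.FJ
open Filter Topology

variable {V : Type*} [NormedAddCommGroup V] [NormedSpace ℂ V]

/-- A matrix of entire functions which is invertible at one point. -/
theorem gen {ι : Type*} [Fintype ι] [DecidableEq ι] {M : V → Matrix ι ι ℂ}
    (hM : ∀ i j, Differentiable ℂ fun a => M a i j) {a₀ : V}
    (h0 : ∀ x : ι → ℂ, (M a₀).mulVec x = 0 → x = 0) {σ : V → ι → ℂ}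
    (hσ : ∀ i, Differentiable ℂ fun a => σ a i) (h : ∀ a, (M a).mulVec (σ a) = 0) (i : ι) :
    ∀ a, σ a i = 0 := by
  have hdet : Differentiable ℂ fun a => (M a).det := by
    simp only [Matrix.det_apply']
    refine Differentiable.fun_sum fun p _ => ?_
    refine Differentiable.const_mul ?_ _
    have h1 : ∀ s : Finset ι, Differentiable ℂ fun a => ∏ j ∈ s, M a (p j) j := by
      intro s
      induction s using Finset.induction_on with
      | empty =>
        simp only [Finset.prod_empty]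
        exact differentiable_const _
      | insert j s hj ih =>
        simp only [Finset.prod_insert hj]
        exact (hM (p j) j).mul ih
    exact h1 Finset.univ
  have hnz : NZ fun a => (M a).det := by
    refine ⟨hdet, a₀, fun h1 => ?_⟩
    obtain ⟨x, hx, hx0⟩ := Matrix.exists_mulVec_eq_zero_iff.2 h1
    exact hx (h0 x hx0)
  refine hnz.cancel (hσ i) fun a => ?_
  have h1 : (M a).adjugate.mulVec ((M a).mulVec (σ a)) = 0 := by
    rw [h a, Matrix.mulVec_zero]
  rw [Matrix.mulVec_mulVec, Matrix.adjugate_mul, Matrix.smul_mulVec, Matrix.one_mulVec] at h1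
  have h2 := congrFun h1 i
  rw [Pi.smul_apply, smul_eq_mul, Pi.zero_apply] at h2
  rw [mul_comm]
  exact h2

theorem const_of_norm [FiniteDimensional ℂ V] {Λ : AddSubgroup V}
    (hs : Submodule.span ℝ (Λ : Set V) = ⊤) {F : V → ℂ} (hF : Differentiable ℂ F)
    (hp : ∀ b ∈ Λ, ∀ v, ‖F (b + v)‖ = ‖F v‖) (v : V) : F v = F 0 := by
  have : ProperSpace V := FiniteDimensional.proper ℂ V
  obtain ⟨R, hR⟩ := cobounded Λ hs
  obtain ⟨C, hC⟩ : ∃ C, ∀ v ∈ Metric.closedBall (0 : V) R, ‖F v‖ ≤ C :=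
    (isCompact_closedBall _ _).exists_bound_of_continuousOn hF.continuous.continuousOn
  refine hF.apply_eq_apply_of_bounded ?_ v 0
  rw [isBounded_iff_forall_norm_le]
  refine ⟨C, ?_⟩
  rintro _ ⟨v, rfl⟩
  obtain ⟨b, hb, hbR⟩ := hR v
  rw [← hp b hb v]
  exact hC _ (by rwa [mem_closedBall_zero_iff])

/-- The characters of a finite abelian group. -/
theorem chars (G : Type*) [Group G] [Fintype G] (hc : ∀ a b : G, a * b = b * a) :
    ∃ (n : ℕ) (ψ : Fin n → G →* ℂ), (∀ i g, ‖ψ i g‖ = 1) ∧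
      (∀ g, g ≠ 1 → ∑ i, ψ i g = 0) ∧ ∑ i, ψ i 1 = Fintype.card G := by
  classical
  let _i : CommGroup G := { (inferInstance : Group G) with mul_comm := hc }
  let e := Fintype.equivFin (AddChar (Additive G) ℂ)
  refine ⟨Fintype.card (AddChar (Additive G) ℂ), fun i =>
    { toFun := fun g => (e.symm i) (Additive.ofMul g)
      map_one' := AddChar.map_zero_eq_one _
      map_mul' := fun a b => AddChar.map_add_eq_mul _ _ _ }, fun i g => ?_, fun g hg => ?_, ?_⟩
  · exact (e.symm i).norm_apply _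
  · have h2 : ∑ i, (e.symm i) (Additive.ofMul g) = ∑ φ : AddChar (Additive G) ℂ,
        φ (Additive.ofMul g) := Fintype.sum_equiv e.symm _ _ fun i => rfl
    change ∑ i, (e.symm i) (Additive.ofMul g) = _
    rw [h2, AddChar.sum_apply_eq_ite, if_neg]
    exact hg
  · have h2 : ∑ i, (e.symm i) (Additive.ofMul 1) = ∑ φ : AddChar (Additive G) ℂ,
        φ (Additive.ofMul 1) := Fintype.sum_equiv e.symm _ _ fun i => rfl
    change ∑ i, (e.symm i) (Additive.ofMul 1) = _
    rw [h2, AddChar.sum_apply_eq_ite, if_pos ofMul_one,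
      Fintype.card_congr (Additive.toMul : Additive G ≃ G)]

variable {Γ : Subgroup (V ≃ᵃ[ℂ] V)} {e Q : (V ≃ᵃ[ℂ] V) → V → ℂ} {H : V → V → ℂ}

open Classical in
/-- The character of `Γ` given by a character of the group of the linear parts. -/
noncomputable def lch (ψ : Lin Γ →* ℂ) (γ : V ≃ᵃ[ℂ] V) : ℂ :=
  if h : γ.linear ∈ Lin Γ then ψ ⟨γ.linear, h⟩ else 1

theorem lch_eq (ψ : Lin Γ →* ℂ) {γ : V ≃ᵃ[ℂ] V} (hγ : γ ∈ Γ) :
    lch ψ γ = ψ ⟨γ.linear, γ, hγ, rfl⟩ := dif_pos _

theorem lch_rp (ψ : Lin Γ →* ℂ) (g : Lin Γ) : lch ψ (rp g) = ψ g := by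
  rw [lch_eq ψ (rp_mem g)]
  congr 1
  exact Subtype.ext (rp_lin g)

theorem lch_uch {ψ : Lin Γ →* ℂ} (h : ∀ g, ‖ψ g‖ = 1) : Uch Γ (lch ψ) where
  norm γ hγ := by rw [lch_eq ψ hγ, h]
  mul γ hγ δ hδ := by
    rw [lch_eq ψ hγ, lch_eq ψ hδ, lch_eq ψ (Γ.mul_mem hγ hδ), ← map_mul]
    rfl

theorem lch_tra (ψ : Lin Γ →* ℂ) {γ : V ≃ᵃ[ℂ] V} (hγ : γ ∈ tra Γ) : lch ψ γ = 1 := by
  rw [mem_tra] at hγ
  rw [lch_eq ψ hγ.1]
  have h1 : (⟨γ.linear, γ, hγ.1, rfl⟩ : Lin Γ) = 1 := Subtype.ext (LinearEquiv.ext hγ.2)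
  rw [h1, map_one]

variable [Fintype (Lin Γ)]

/-- The subgroup of the `S (γ 0)`. -/
noncomputable def MG (Γ : Subgroup (V ≃ᵃ[ℂ] V)) [Fintype (Lin Γ)] : AddSubgroup V where
  carrier := {v | ∃ γ ∈ Γ, SS Γ (γ 0) = v}
  zero_mem' := ⟨1, Γ.one_mem, map_zero _⟩
  add_mem' := by
    rintro _ _ ⟨γ, hγ, rfl⟩ ⟨δ, hδ, rfl⟩
    exact ⟨γ * δ, Γ.mul_mem hγ hδ, SS_mul hγ δ⟩
  neg_mem' := by
    rintro _ ⟨γ, hγ, rfl⟩
    exact ⟨γ⁻¹, Γ.inv_mem hγ, SS_inv hγ⟩

theorem SS_pow {γ : V ≃ᵃ[ℂ] V} (hγ : γ ∈ Γ) (n : ℕ) : SS Γ ((γ ^ n) 0) = n • SS Γ (γ 0) := by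
  induction n with
  | zero =>
    rw [pow_zero, zero_smul]
    exact map_zero _
  | succ n ih => rw [pow_succ, SS_mul (Γ.pow_mem hγ n), ih, succ_nsmul]

theorem card_SS_mem {γ : V ≃ᵃ[ℂ] V} (hγ : γ ∈ Γ) :
    Fintype.card (Lin Γ) • SS Γ (γ 0) ∈ latt Γ := by
  rw [← SS_pow hγ]
  refine SS_latt (latt_of_tra (mem_tra.2 ⟨Γ.pow_mem hγ _, fun v => ?_⟩))
  let g : Lin Γ := ⟨γ.linear, γ, hγ, rfl⟩
  have h1 : g ^ Fintype.card (Lin Γ) = 1 := pow_card_eq_one
  have h2 : (γ ^ Fintype.card (Lin Γ)).linear = γ.linear ^ Fintype.card (Lin Γ) :=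
    map_pow AffineEquiv.linearHom γ _
  rw [h2]
  have h3 := congrArg Subtype.val h1
  have h4 : γ.linear ^ Fintype.card (Lin Γ) = 1 := h3
  rw [h4]
  rfl

variable [FiniteDimensional ℂ V]

/-- The quotient of the values along two parallel leaves. -/
theorem cross_aux (hΓ : IsTorusQuotient Γ) (h : PD Γ Q H) (hg : G1 Γ Q) {z₀ z₁ : V}
    (hc : ∀ k k', Sec Γ Q k → Sec Γ Q k' → ∀ v,
      k (z₁ + SS Γ v) * k' (z₀ + SS Γ v) = k' (z₁ + SS Γ v) * k (z₀ + SS Γ v)) :
    ∃ C : ℂ, C ≠ 0 ∧ ∀ k, Sec Γ Q k → ∀ v,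
      k (z₁ + SS Γ v) = C * Complex.exp (Real.pi * H (SS Γ v) (z₁ - z₀)) * k (z₀ + SS Γ v) := by
  choose k hk hk0 using fun v => hg (z₀ + SS Γ v)
  set u : V := z₁ - z₀ with hu
  set ρ : V → ℂ := fun v => k v (z₁ + SS Γ v) / k v (z₀ + SS Γ v) with hρ
  have h1 : ∀ f, Sec Γ Q f → ∀ v, f (z₁ + SS Γ v) = ρ v * f (z₀ + SS Γ v) := by
    intro f hf v
    have h2 := hc f (k v) hf (hk v) v
    have h3 := hk0 v
    rw [hρ]
    field_simp
    exact h2
  have hSd : Differentiable ℂ fun v => SS Γ v :=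
    (LinearMap.toContinuousLinearMap (SS Γ)).differentiable
  have hρd : Differentiable ℂ ρ := by
    intro v
    have d1 : Differentiable ℂ fun w => k v (z₁ + SS Γ w) := (hk v).holo.comp (hSd.const_add z₁)
    have d2 : Differentiable ℂ fun w => k v (z₀ + SS Γ w) := (hk v).holo.comp (hSd.const_add z₀)
    refine ((d1 v).mul ((d2 v).inv (hk0 v))).congr_of_eventuallyEq ?_
    filter_upwards [d2.continuous.continuousAt.eventually_ne (hk0 v)] with w hw
    change ρ w = k v (z₁ + SS Γ w) * (k v (z₀ + SS Γ w))⁻¹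
    rw [h1 _ (hk v) w, mul_inv_cancel_right₀ hw]
  have hHd : Differentiable ℂ fun v => H (SS Γ v) u := (herm_holo h.herm u).comp hSd
  set F : V → ℂ := fun v => ρ v * Complex.exp (-(Real.pi * H (SS Γ v) u)) with hF
  have hFd : Differentiable ℂ F := hρd.mul ((hHd.const_mul _).neg).cexp
  have hper : ∀ b ∈ latt Γ, ∀ v, ‖F (b + v)‖ = ‖F v‖ := by
    intro b hb v
    set m := SS Γ b with hm
    have hmt : AffineEquiv.constVAdd ℂ V m ∈ Γ := SS_latt hb
    have e0 : ∀ z, z + SS Γ (b + v) = AffineEquiv.constVAdd ℂ V m (z + SS Γ v) := by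
      intro z
      rw [AffineEquiv.constVAdd_apply, vadd_eq_add, map_add]
      abel
    have e1 := h1 _ (hk v) (b + v)
    rw [e0, e0, (hk v).eq _ hmt, (hk v).eq _ hmt, h1 _ (hk v) v] at e1
    have e2 : z₁ + SS Γ v = (z₀ + SS Γ v) + u := by rw [hu]; abel
    have e3 := h.ratio hmt (z₀ + SS Γ v) u
    have e4 : (AffineEquiv.constVAdd ℂ V m) 0 = m := by
      rw [AffineEquiv.constVAdd_apply, vadd_eq_add, add_zero]
    have e5 : (AffineEquiv.constVAdd ℂ V m).linear u = u := rfl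
    rw [e4, e5] at e3
    rw [e2, e3] at e1
    have e6 : ρ (b + v) = Complex.exp (Real.pi * H u m) * ρ v := by
      refine mul_right_cancel₀ (mul_ne_zero (h.ne hmt (z₀ + SS Γ v)) (hk0 v)) ?_
      linear_combination -e1
    have e7 : F (b + v) = Complex.exp (Real.pi * (H u m - H m u)) * F v := by
      rw [hF]
      beta_reduce
      rw [e6, map_add, h.herm.add_left]
      have e8 : Complex.exp (-(Real.pi * (H (SS Γ b) u + H (SS Γ v) u))) *
          Complex.exp (Real.pi * H u m) = Complex.exp (Real.pi * (H u m - H m u)) *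
            Complex.exp (-(Real.pi * H (SS Γ v) u)) := by
        rw [← Complex.exp_add, ← Complex.exp_add]
        congr 1
        ring
      linear_combination ρ v * e8
    rw [e7, norm_mul, exp_norm h.herm, one_mul]
  have hconst := const_of_norm hΓ.span_top hFd hper
  refine ⟨F 0, fun h0 => ?_, fun f hf v => ?_⟩
  · obtain ⟨f, hf, hf1⟩ := hg (z₁ + SS Γ 0)
    rw [h1 f hf 0] at hf1
    have h2 : ρ 0 ≠ 0 := left_ne_zero_of_mul hf1
    exact mul_ne_zero h2 (Complex.exp_ne_zero _) h0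
  · rw [h1 f hf v, ← hconst v, hF]
    beta_reduce
    have e8 : Complex.exp (-(Real.pi * H (SS Γ v) u)) * Complex.exp (Real.pi * H (SS Γ v) u)
        = 1 := by
      rw [← Complex.exp_add, neg_add_cancel, Complex.exp_zero]
    linear_combination (-(ρ v) * f (z₀ + SS Γ v)) * e8

/-- The relation for the twists. -/
theorem cross_twist (h : PD Γ Q H) {z₀ z₁ : V} {C : ℂ}
    (hC : ∀ k, Sec Γ Q k → ∀ v,
      k (z₁ + SS Γ v) = C * Complex.exp (Real.pi * H (SS Γ v) (z₁ - z₀)) * k (z₀ + SS Γ v))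
    (x : V) {k : V → ℂ} (hk : Sec Γ (twi Q (psi H (SS Γ x))) k) :
    k z₁ = C * Complex.exp (Real.pi * (H (SS Γ x) (z₁ - z₀) - H (z₁ - z₀) (SS Γ x))) * k z₀ := by
  have h1 := hC _ (trans_back h (fun γ hγ => lin_SS hγ x) hk) x
  beta_reduce at h1
  rw [add_sub_cancel_right, add_sub_cancel_right] at h1
  refine mul_right_cancel₀ (Complex.exp_ne_zero (Real.pi * H (z₁ + SS Γ x) (SS Γ x))) ?_
  rw [h1]
  have h2 : Complex.exp (Real.pi * H (SS Γ x) (z₁ - z₀)) *
      Complex.exp (Real.pi * H (z₀ + SS Γ x) (SS Γ x)) =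
      Complex.exp (Real.pi * (H (SS Γ x) (z₁ - z₀) - H (z₁ - z₀) (SS Γ x))) *
        Complex.exp (Real.pi * H (z₁ + SS Γ x) (SS Γ x)) := by
    rw [← Complex.exp_add, ← Complex.exp_add]
    congr 1
    have h3 : H (z₁ - z₀) (SS Γ x) = H z₁ (SS Γ x) - H z₀ (SS Γ x) := h_sub_left h.herm _ _ _
    rw [h3, h.herm.add_left, h.herm.add_left]
    ring
  linear_combination C * k z₀ * h2

/-- Points whose leaves are not separated. -/
theorem cross_pts (hΓ : IsTorusQuotient Γ) (h : PD Γ Q H) (hg : G1 Γ Q) (hv : V1 (alb Γ) Q)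
    {z₀ z₁ : V} (hc : ∀ k k', Sec Γ Q k → Sec Γ Q k' → ∀ v,
      k (z₁ + SS Γ v) * k' (z₀ + SS Γ v) = k' (z₁ + SS Γ v) * k (z₀ + SS Γ v)) :
    ∃ γ ∈ Γ, γ z₀ = z₁ := by
  obtain ⟨C, hC0, hC⟩ := cross_aux hΓ h hg hc
  have h1 : SS Γ (z₁ - z₀) ∈ MG Γ := by
    refine dual_S hΓ h.herm h.pos (MG Γ) ?_ ?_ ?_ (SS_SS _) ?_
    · rintro _ ⟨γ, _, rfl⟩
      exact SS_SS _
    · rintro _ ⟨γ, hγ, rfl⟩
      exact card_SS_mem hγ
    · intro b hb
      refine ⟨AffineEquiv.constVAdd ℂ V b, hb, ?_⟩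
      rw [AffineEquiv.constVAdd_apply, vadd_eq_add, add_zero]
    · intro x hx
      obtain ⟨k, hk, hk0⟩ := hg z₀
      have h2 : Sec Γ (twi Q (psi H (SS Γ x))) k := by
        refine ⟨hk.holo, fun γ hγ z => ?_⟩
        have h3 : psi H (SS Γ x) γ = 1 := by
          rw [psi, exp_one h.herm, SS_adj h.herm h.inv]
          exact hx _ ⟨γ, hγ, rfl⟩
        rw [twi, h3, mul_one]
        exact hk.eq γ hγ z
      have h3 := cross_twist h hC x h2
      have h4 := hC k hk 0
      rw [map_zero, add_zero, add_zero, h_zero_left h.herm, mul_zero, Complex.exp_zero,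
        mul_one] at h4
      rw [h4] at h3
      have h5 : Complex.exp (Real.pi * (H (SS Γ x) (z₁ - z₀) - H (z₁ - z₀) (SS Γ x))) = 1 := by
        refine mul_left_cancel₀ (mul_ne_zero hC0 hk0) ?_
        linear_combination -h3
      rw [exp_one h.herm, SS_adj h.herm h.inv] at h5
      exact h5
  obtain ⟨γ, hγ, hγe⟩ := h1
  have hc' : ∀ k k', Sec Γ Q k → Sec Γ Q k' → ∀ v,
      k (z₁ + SS Γ v) * k' (γ z₀ + SS Γ v) = k' (z₁ + SS Γ v) * k (γ z₀ + SS Γ v) := by
    intro k k' hk hk' v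
    have e1 : γ z₀ + SS Γ v = γ (z₀ + SS Γ v) := by
      rw [act_add, lin_SS hγ]
    rw [e1, hk.eq γ hγ, hk'.eq γ hγ]
    linear_combination Q γ (z₀ + SS Γ v) * hc k k' hk hk' v
  have hS : SS Γ (z₁ - γ z₀) = 0 := by
    rw [act γ z₀, map_sub, map_add, SS_lin hγ, hγe, map_sub]
    abel
  obtain ⟨C', hC0', hC'⟩ := cross_aux hΓ h hg hc'
  let E : Ent V →ₗ[ℂ] ℂ :=
    { toFun := fun f => f.1 z₁ - C' * f.1 (γ z₀)
      map_add' := fun f f' => by
        change (f.1 z₁ + f'.1 z₁) - C' * (f.1 (γ z₀) + f'.1 (γ z₀)) = _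
        ring
      map_smul' := fun c f => by
        change (c * f.1 z₁) - C' * (c * f.1 (γ z₀)) = c * (f.1 z₁ - C' * f.1 (γ z₀))
        ring }
  obtain ⟨δ, hδ, hδe⟩ := hv.pts (γ z₀) z₁ fun f hf hf0 => by
    have h2 := fou hΓ h E (fun x k hk => by
      have h3 := cross_twist h hC' x hk
      have h4 : H (SS Γ x) (z₁ - γ z₀) = 0 := by
        rw [SS_adj h.herm h.inv, hS, h_zero_right h.herm]
      have h5 : H (z₁ - γ z₀) (SS Γ x) = 0 := by
        rw [← SS_adj h.herm h.inv, hS, h_zero_left h.herm]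
      rw [h4, h5, sub_self, mul_zero, Complex.exp_zero, mul_one] at h3
      change k z₁ - C' * k (γ z₀) = 0
      rw [h3, sub_self]) hf
    change f z₁ - C' * f (γ z₀) = 0 at h2
    rw [hf0, mul_zero, sub_zero] at h2
    exact h2
  exact ⟨δ * γ, Γ.mul_mem hδ.1 hγ, hδe⟩

/-- Tangent vectors which are not separated along a leaf. -/
theorem cross_tan (hΓ : IsTorusQuotient Γ) (h : PD Γ Q H) (hg : G1 Γ Q) (hv : V1 (alb Γ) Q)
    {z w : V} (hc : ∀ k k', Sec Γ Q k → Sec Γ Q k' → ∀ v,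
      fderiv ℂ k (z + SS Γ v) w * k' (z + SS Γ v) =
        fderiv ℂ k' (z + SS Γ v) w * k (z + SS Γ v)) : w = 0 := by
  choose k hk hk0 using fun v => hg (z + SS Γ v)
  set ρ : V → ℂ := fun v => fderiv ℂ (k v) (z + SS Γ v) w / k v (z + SS Γ v) with hρ
  have h1 : ∀ f, Sec Γ Q f → ∀ v, fderiv ℂ f (z + SS Γ v) w = ρ v * f (z + SS Γ v) := by
    intro f hf v
    have h2 := hc f (k v) hf (hk v) v
    have h3 := hk0 v
    rw [hρ]
    field_simp
    exact h2
  have hSd : Differentiable ℂ fun v => SS Γ v :=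
    (LinearMap.toContinuousLinearMap (SS Γ)).differentiable
  have hρd : Differentiable ℂ ρ := by
    intro v
    have d1 : Differentiable ℂ fun x => fderiv ℂ (k v) (z + SS Γ x) w :=
      (Pool.Agent.Helper857.differentiable_fderiv_apply (hk v).holo w).comp (hSd.const_add z)
    have d2 : Differentiable ℂ fun x => k v (z + SS Γ x) := (hk v).holo.comp (hSd.const_add z)
    refine ((d1 v).mul ((d2 v).inv (hk0 v))).congr_of_eventuallyEq ?_
    filter_upwards [d2.continuous.continuousAt.eventually_ne (hk0 v)] with x hx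
    change ρ x = fderiv ℂ (k v) (z + SS Γ x) w * (k v (z + SS Γ x))⁻¹
    rw [h1 _ (hk v) x, mul_inv_cancel_right₀ hx]
  have hHd : Differentiable ℂ fun v => H (SS Γ v) w := (herm_holo h.herm w).comp hSd
  set R : V → ℂ := fun v => ρ v - Real.pi * H (SS Γ v) w with hR
  have hRd : Differentiable ℂ R := hρd.sub (hHd.const_mul _)
  have hadd : ∀ b ∈ latt Γ, ∀ v, ρ (b + v) = ρ v + Real.pi * H w (SS Γ b) := by
    intro b hb v
    set m := SS Γ b with hm
    have hmt : AffineEquiv.constVAdd ℂ V m ∈ Γ := SS_latt hb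
    have e0 : ∀ x, x + m = AffineEquiv.constVAdd ℂ V m x := by
      intro x
      rw [AffineEquiv.constVAdd_apply, vadd_eq_add, add_comm]
    have e1 := h1 _ (hk v) (b + v)
    have e2 : z + SS Γ (b + v) = (z + SS Γ v) + m := by rw [map_add]; abel
    rw [e2] at e1
    have e4 : (AffineEquiv.constVAdd ℂ V m) 0 = m := by
      rw [AffineEquiv.constVAdd_apply, vadd_eq_add, add_zero]
    set y := z + SS Γ v with hy
    have d1 := hasDerivAt_along ((hk v).holo (y + m)) w
    have d2 : HasDerivAt (fun τ : ℂ => Q (AffineEquiv.constVAdd ℂ V m) (y + τ • w))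
        (Q (AffineEquiv.constVAdd ℂ V m) y * (Real.pi * H w m)) 0 := by
      have e6 : (fun τ : ℂ => Q (AffineEquiv.constVAdd ℂ V m) (y + τ • w))
          = fun τ : ℂ => Q (AffineEquiv.constVAdd ℂ V m) y *
            Complex.exp (τ * (Real.pi * H w m)) := by
        funext τ
        have e7 := h.ratio hmt y (τ • w)
        have e8 : (AffineEquiv.constVAdd ℂ V m).linear (τ • w) = τ • w := rfl
        rw [e4, e8, h.herm.smul_left] at e7
        rw [e7]
        congr 2
        ring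
      rw [e6]
      have e7 := (((hasDerivAt_id (0 : ℂ)).mul_const (Real.pi * H w m)).cexp).const_mul
        (Q (AffineEquiv.constVAdd ℂ V m) y)
      simp only [id, zero_mul, Complex.exp_zero, one_mul] at e7
      exact e7
    have d3 := d2.fun_mul (hasDerivAt_along ((hk v).holo y) w)
    have e9 := d1.unique (d3.congr_of_eventuallyEq (Eventually.of_forall fun τ => by
      beta_reduce
      rw [add_right_comm, e0, (hk v).eq _ hmt]))
    simp only [zero_smul, add_zero] at e9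
    rw [e9, e0, (hk v).eq _ hmt, h1 _ (hk v) v] at e1
    refine (mul_right_cancel₀ (mul_ne_zero (h.ne hmt y) (hk0 v)) ?_)
    rw [← hy] at e1 ⊢
    linear_combination -e1
  have hRb : ∀ b ∈ latt Γ, ∀ v,
      R (b + v) = R v + Real.pi * (H w (SS Γ b) - H (SS Γ b) w) := by
    intro b hb v
    rw [hR]
    beta_reduce
    rw [hadd b hb v, map_add, h.herm.add_left]
    ring
  have hexp := const_of_norm hΓ.span_top hRd.cexp fun b hb v => by
    rw [hRb b hb v, Complex.exp_add, norm_mul, exp_norm h.herm, mul_one]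
  have hRc : ∀ v, R v = R 0 := by
    intro v
    refine is_const_of_fderiv_eq_zero hRd (fun x => ?_) v 0
    have e1 : HasFDerivAt (fun v => Complex.exp (R v)) (Complex.exp (R x) • fderiv ℂ R x) x :=
      (hRd x).hasFDerivAt.cexp
    have e2 : HasFDerivAt (fun v => Complex.exp (R v)) (0 : V →L[ℂ] ℂ) x := by
      have e3 : (fun v => Complex.exp (R v)) = fun _ => Complex.exp (R 0) := funext hexp
      rw [e3]
      exact hasFDerivAt_const _ _
    exact (smul_eq_zero.1 (e1.unique e2)).resolve_left (Complex.exp_ne_zero _)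
  -- `H (S v) w = 0`
  have hIm : ∀ v, (H w (SS Γ v)).im = 0 := by
    intro v
    have hvs : v ∈ Submodule.span ℝ (latt Γ : Set V) := by
      rw [hΓ.span_top]
      trivial
    induction hvs using Submodule.span_induction with
    | mem b hb =>
      have e1 := hRb b hb 0
      rw [hRc (b + 0)] at e1
      have e2 : (Real.pi : ℂ) * (H w (SS Γ b) - H (SS Γ b) w) = 0 := by linear_combination -e1
      have e3 := (mul_eq_zero.1 e2).resolve_left (by exact_mod_cast Real.pi_ne_zero)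
      have e4 := congrArg Complex.im e3
      rw [Complex.sub_im, h_im_symm h.herm w, Complex.zero_im] at e4
      linarith
    | zero => rw [map_zero, h_zero_right h.herm, Complex.zero_im]
    | add x y _ _ hx hy => rw [map_add, h_add_right h.herm, Complex.add_im, hx, hy, add_zero]
    | smul a x _ hx =>
      rw [← Complex.coe_smul, map_smul, h_smul_right h.herm, Complex.conj_ofReal,
        Complex.im_ofReal_mul, hx, mul_zero]
  have hH0 : ∀ v, H w (SS Γ v) = 0 := by
    intro v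
    apply Complex.ext
    · have e1 := hIm (Complex.I • v)
      rw [map_smul, h_smul_right h.herm, Complex.conj_I] at e1
      simp at e1
      exact e1
    · exact hIm v
  have hH1 : ∀ v, H (SS Γ v) w = 0 := fun v => by rw [h.herm.symm w, hH0, map_zero]
  let E : Ent V →ₗ[ℂ] ℂ :=
    { toFun := fun f => fderiv ℂ f.1 z w - R 0 * f.1 z
      map_add' := fun f f' => by
        have e1 : fderiv ℂ (f + f').1 z = fderiv ℂ f.1 z + fderiv ℂ f'.1 z :=
          fderiv_add (f.2 z) (f'.2 z)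
        rw [e1]
        change (fderiv ℂ f.1 z w + fderiv ℂ f'.1 z w) - R 0 * (f.1 z + f'.1 z) = _
        ring
      map_smul' := fun c f => by
        have e1 : fderiv ℂ (c • f).1 z = c • fderiv ℂ f.1 z := fderiv_const_smul (f.2 z) c
        rw [e1]
        change (c * fderiv ℂ f.1 z w) - R 0 * (c * f.1 z) =
          c * (fderiv ℂ f.1 z w - R 0 * f.1 z)
        ring }
  refine hv.tan z w fun f hf hf0 => ?_
  have h2 := fou hΓ h E (fun x k hk => by
    have h3 := trans_back h (fun γ hγ => lin_SS hγ x) hk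
    have h4 := h1 _ h3 x
    beta_reduce at h4
    rw [add_sub_cancel_right] at h4
    have h5 : ρ x = R 0 := by
      have e1 := hRc x
      rw [hR] at e1
      beta_reduce at e1
      rw [hH1, mul_zero, sub_zero] at e1
      rw [e1, hR]
    have d1 := hasDerivAt_along (h3.holo (z + SS Γ x)) w
    have d2 := hasDerivAt_along (hk.holo z) w
    have d4 : HasDerivAt (fun τ : ℂ => Complex.exp (Real.pi * H (z + SS Γ x + τ • w) (SS Γ x)))
        0 0 := by
      have e6 : (fun τ : ℂ => Complex.exp (Real.pi * H (z + SS Γ x + τ • w) (SS Γ x)))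
          = fun τ : ℂ => Complex.exp (Real.pi * H (z + SS Γ x) (SS Γ x)) := by
        funext τ
        rw [h.herm.add_left (z + SS Γ x), h.herm.smul_left, hH0, mul_zero, add_zero]
      rw [e6]
      exact hasDerivAt_const _ _
    have d5 := d2.fun_mul d4
    have e7 := d1.unique (d5.congr_of_eventuallyEq (Eventually.of_forall fun τ => by
      beta_reduce
      have e8 : z + SS Γ x + τ • w - SS Γ x = z + τ • w := by abel
      rw [e8]))
    simp only [zero_smul, add_zero, mul_zero] at e7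
    rw [e7, h5] at h4
    change fderiv ℂ k z w - R 0 * k z = 0
    have e9 := Complex.exp_ne_zero (Real.pi * H (z + SS Γ x) (SS Γ x))
    refine mul_right_cancel₀ e9 ?_
    rw [zero_mul]
    linear_combination h4) hf
  change fderiv ℂ f z w - R 0 * f z = 0 at h2
  rw [hf0, mul_zero, sub_zero] at h2
  exact h2

end Q36.HV
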