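import Pool.Agent.Q36.HV.E

/-!
# The induction step
-/

set_option autoImplicit false

namespace Q36.HV

open Pool.Agent.W594.SYZ2 Pool.Agent.W594.SYZ2.TQ Q47.FJ
open Filter Topology

variable {V : Type*} [NormedAddCommGroup V] [NormedSpace ℂ V]
  {Γ : Subgroup (V ≃ᵃ[ℂ] V)} {e e₁ e₂ : (V ≃ᵃ[ℂ] V) → V → ℂ} {H H₁ H₂ : V → V → ℂ}

theorem common {n : ℕ} {d : Fin n → V → ℂ} (hd : ∀ j, NZ (d j)) : ∃ v, ∀ j, d j v ≠ 0 := by
  have h1 : ∀ s : Finset (Fin n), NZ fun v => ∏ j ∈ s, d j v := by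
    intro s
    induction s using Finset.induction_on with
    | empty =>
      simp only [Finset.prod_empty]
      exact ⟨differentiable_const _, 0, one_ne_zero⟩
    | insert j s hj ih =>
      simp only [Finset.prod_insert hj]
      exact (hd j).mul ih
  obtain ⟨v, hv⟩ := (h1 Finset.univ).ne
  exact ⟨v, fun j => Finset.prod_ne_zero_iff.1 hv j (Finset.mem_univ j)⟩

/-- The semicharacter. -/
noncomputable def ch (Γ : Subgroup (V ≃ᵃ[ℂ] V)) (e : (V ≃ᵃ[ℂ] V) → V → ℂ) (H : V → V → ℂ)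
    (b : latt Γ) : ℂ :=
  e (AffineEquiv.constVAdd ℂ V (b : V)) 0 * Complex.exp (-(Real.pi / 2 * H b b))

theorem PD.tr (h : PD Γ e H) (b : latt Γ) (z : V) :
    e (AffineEquiv.constVAdd ℂ V (b : V)) z = ch Γ e H b * Complex.exp (lex H b z) := by
  have h1 := h.ratio (γ := AffineEquiv.constVAdd ℂ V (b : V)) b.2 0 z
  have e4 : (AffineEquiv.constVAdd ℂ V (b : V)) 0 = b := by
    rw [AffineEquiv.constVAdd_apply, vadd_eq_add, add_zero]
  have e5 : (AffineEquiv.constVAdd ℂ V (b : V)).linear z = z := rfl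
  rw [zero_add, e4, e5] at h1
  rw [h1, ch, mul_assoc, ← Complex.exp_add, lex]
  congr 2
  ring

theorem PD.semi (h : PD Γ e H) : Semi (latt Γ) H (ch Γ e H) where
  norm b := by
    obtain ⟨c, hc, h1⟩ := h.eq (AffineEquiv.constVAdd ℂ V (b : V)) b.2
    have e4 : (AffineEquiv.constVAdd ℂ V (b : V)) 0 = b := by
      rw [AffineEquiv.constVAdd_apply, vadd_eq_add, add_zero]
    rw [ch, h1, e4, map_zero, lex, h_zero_left h.herm, mul_zero, zero_add, mul_assoc,
      ← Complex.exp_add, add_neg_cancel, Complex.exp_zero, mul_one, hc]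
  add b c := by
    have h1 := h.mul (AffineEquiv.constVAdd ℂ V (c : V)) c.2
      (AffineEquiv.constVAdd ℂ V (b : V)) b.2 0
    have h2 : AffineEquiv.constVAdd ℂ V (c : V) * AffineEquiv.constVAdd ℂ V (b : V) =
        AffineEquiv.constVAdd ℂ V ((b + c : latt Γ) : V) := by
      apply AffineEquiv.ext
      intro v
      change (c : V) + ((b : V) + v) = ((b : V) + c) + v
      abel
    have e4 : (AffineEquiv.constVAdd ℂ V (b : V)) 0 = b := by
      rw [AffineEquiv.constVAdd_apply, vadd_eq_add, add_zero]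
    rw [h2, h.tr, e4, h.tr, h.tr] at h1
    refine mul_right_cancel₀ (Complex.exp_ne_zero (lex H ((b + c : latt Γ) : V) 0)) ?_
    have h3 : Complex.exp (Real.pi / 2 * (H (b : V) c - H (c : V) b)) *
        Complex.exp (lex H ((b + c : latt Γ) : V) 0) =
        Complex.exp (lex H (c : V) b) * Complex.exp (lex H (b : V) 0) := by
      rw [← Complex.exp_add, ← Complex.exp_add]
      congr 1
      have h4 : ((b + c : latt Γ) : V) = b + c := rfl
      rw [h4]
      simp only [lex, h_zero_left h.herm, h.herm.add_left, h_add_right h.herm]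
      ring
    linear_combination h1 - ch Γ e H b * ch Γ e H c * h3

theorem sec_of_th (h : PD Γ e H) {s : V → ℂ} (hs : IsTh (latt Γ) H (ch Γ e H) s) :
    Sec (tra Γ) e s := by
  refine ⟨hs.holo, fun γ hγ z => ?_⟩
  have h1 := eq_tra (mem_tra.1 hγ).2
  have h2 := latt_of_tra hγ
  have h3 := hs.eq ⟨γ 0, h2⟩ z
  have h4 := h.tr ⟨γ 0, h2⟩ z
  have h5 : γ z = z + γ 0 := by
    rw [act γ z, (mem_tra.1 hγ).2]
  have h6 : e γ z = e (AffineEquiv.constVAdd ℂ V (γ 0)) z := congrFun (congrArg e h1) z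
  rw [h5, h6, h4]
  exact h3

theorem sum_lch {n : ℕ} {ψ : Fin n → Lin Γ →* ℂ} [Fintype (Lin Γ)]
    (h1 : ∀ g, g ≠ 1 → ∑ i, ψ i g = 0) (h2 : ∑ i, ψ i 1 = Fintype.card (Lin Γ)) (g h : Lin Γ)
    [Decidable (g = h)] :
    ∑ i, ψ i h⁻¹ * ψ i g = if g = h then (Fintype.card (Lin Γ) : ℂ) else 0 := by
  have h3 : ∀ i, ψ i h⁻¹ * ψ i g = ψ i (h⁻¹ * g) := fun i => (map_mul _ _ _).symm
  rw [Finset.sum_congr rfl fun i _ => h3 i]
  split_ifs with hgh
  · rw [hgh, inv_mul_cancel, h2]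
  · exact h1 _ fun h4 => hgh (inv_mul_eq_one.1 h4).symm

theorem prod_sec [FiniteDimensional ℂ V] (h₁ : PD Γ e₁ H₁) (h₂ : PD Γ e₂ H₂)
    (he : ∀ γ ∈ Γ, ∀ z, e γ z = e₁ γ z * e₂ γ z) {φ : V →ₗ[ℂ] V}
    (hφ : ∀ a w, H₂ (φ a) w = H₁ a w) {k s : V → ℂ} (hk : Sec (tra Γ) e₁ k)
    (hs : Sec (tra Γ) e₂ s) (a : V) : Sec (tra Γ) e fun z => k (z + a) * s (z - φ a) where
  holo := (hk.holo.comp (differentiable_id.add_const a)).mul
    (hs.holo.comp (differentiable_id.sub_const _))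
  eq γ hγ z := by
    have h1 := (mem_tra.1 hγ).2
    have h2 : γ z + a = γ (z + a) := by rw [act_add, h1]
    have h3 : γ z - φ a = γ (z + -φ a) := by rw [act_add, h1, sub_eq_add_neg]
    rw [h2, h3, hk.eq γ hγ, hs.eq γ hγ, h₁.ratio hγ.1, h₂.ratio hγ.1, h1, h1, he γ hγ.1,
      h_neg_left h₂.herm, hφ, ← sub_eq_add_neg]
    have h4 : Complex.exp (Real.pi * H₁ a (γ 0)) * Complex.exp (Real.pi * -H₁ a (γ 0)) = 1 := by
      rw [← Complex.exp_add, ← Complex.exp_zero]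
      congr 1
      ring
    linear_combination e₁ γ z * e₂ γ z * k (z + a) * s (z - φ a) * h4

theorem Sec.zero [FiniteDimensional ℂ V] : Sec Γ e fun _ => 0 :=
  ⟨differentiable_const _, fun _ _ _ => (mul_zero _).symm⟩

theorem Sec.add' [FiniteDimensional ℂ V] {f g : V → ℂ} (hf : Sec Γ e f) (hg : Sec Γ e g)
    (a : ℂ) : Sec Γ e fun z => a * f z + g z :=
  ⟨(hf.holo.const_mul a).add hg.holo, fun γ hγ z => by
    rw [hf.eq γ hγ, hg.eq γ hγ]
    ring⟩

theorem Sec.sum [FiniteDimensional ℂ V] {n : ℕ} {K : Fin n → V → ℂ} (hK : ∀ j, Sec Γ e (K j))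
    (c : Fin n → ℂ) : Sec Γ e fun z => ∑ j, c j * K j z := by
  have h1 : ∀ s : Finset (Fin n), Sec Γ e fun z => ∑ j ∈ s, c j * K j z := by
    intro s
    induction s using Finset.induction_on with
    | empty =>
      simp only [Finset.sum_empty]
      exact Sec.zero
    | insert j s hj ih =>
      simp only [Finset.sum_insert hj]
      exact (hK j).add' ih (c j)
  exact h1 Finset.univ

theorem sec_tra {ψ : Lin Γ →* ℂ} {K : V → ℂ} (hK : Sec Γ (twi e (lch ψ)) K) :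
    Sec (tra Γ) e K := by
  refine ⟨hK.holo, fun γ hγ z => ?_⟩
  rw [hK.eq γ hγ.1, twi, lch_tra ψ hγ, mul_one]

variable [Fintype (Lin Γ)] [FiniteDimensional ℂ V]

/-- Separation of points. -/
theorem step_pts {I : Type*} [Fintype I] (hΓ : IsTorusQuotient Γ)
    (hab : ∀ g h : Lin Γ, g * h = h * g) (h : PD Γ e H) (h₁ : PD Γ e₁ H₁) (h₂ : PD Γ e₂ H₂)
    (he : ∀ γ ∈ Γ, ∀ z, e γ z = e₁ γ z * e₂ γ z) (z : I → V) (c : I → ℂ)
    (hint : ∀ χ, Uch Γ χ → ∃ d : V → ℂ, NZ d ∧ ∀ v, d v ≠ 0 → ∀ i, ∃ K, Sec Γ (twi e₁ χ) K ∧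
      K (z i + SS Γ v) = 1 ∧ ∀ j, j ≠ i → K (z j + SS Γ v) = 0)
    (hrel : ∀ f, Sec Γ e f → ∑ i, c i * f (z i) = 0) (i : I) : c i = 0 := by
  classical
  obtain ⟨n, ψ, hψ1, hψ2, hψ3⟩ := chars (Lin Γ) hab
  choose d hd hK using fun j => hint _ (lch_uch (hψ1 j))
  obtain ⟨v₀, hv₀⟩ := common hd
  choose K hKs hK1 hK0 using fun j i => hK j v₀ (hv₀ j) i
  obtain ⟨s, hs, hsn⟩ := exists_th hΓ.discrete hΓ.span_top h₂.herm h₂.pos h₂.semi
  have hsec := sec_of_th h₂ hs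
  obtain ⟨φ, hφ⟩ := exists_end h₂.herm h₂.pos h₁.herm
  have hφs := end_surj h₂.herm h₁.pos hφ
  have hφd : Differentiable ℂ fun x => φ x := (LinearMap.toContinuousLinearMap φ).differentiable
  let k : Lin Γ → I → V → ℂ := fun g i x => ∑ j, ψ j g⁻¹ * K j i x
  have hk : ∀ g i, Sec (tra Γ) e₁ (k g i) := fun g i =>
    Sec.sum (fun j => sec_tra (hKs j i)) _
  let M : V → Matrix (Lin Γ × I) (Lin Γ × I) ℂ := fun a p q => k p.1 p.2 (rp q.1 (z q.2) + a)
  let σ : V → Lin Γ × I → ℂ := fun a q =>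
    c q.2 * s (rp q.1 (z q.2) - φ a) * (e (rp q.1) (z q.2))⁻¹
  have hMd : ∀ p q, Differentiable ℂ fun a => M a p q := fun p q =>
    (hk p.1 p.2).holo.comp (differentiable_id.const_add _)
  have hσd : ∀ q, Differentiable ℂ fun a => σ a q := fun q =>
    ((hs.holo.comp (hφd.const_sub _)).const_mul _).mul_const _
  have hMσ : ∀ a, (M a).mulVec (σ a) = 0 := by
    intro a
    funext p
    have h3 := hrel _ (avg_sec h (prod_sec h₁ h₂ he hφ (hk p.1 p.2) hsec a))
    rw [Pi.zero_apply, ← h3]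
    change ∑ q : Lin Γ × I, M a p q * σ a q = _
    rw [Fintype.sum_prod_type_right]
    refine Finset.sum_congr rfl fun i _ => ?_
    rw [avg, Finset.mul_sum]
    refine Finset.sum_congr rfl fun g _ => ?_
    simp only [M, σ]
    ring
  have hM0 : ∀ x : Lin Γ × I → ℂ, (M (SS Γ v₀)).mulVec x = 0 → x = 0 := by
    intro x hx
    funext p
    have h3 := congrFun hx p
    change ∑ q : Lin Γ × I, M (SS Γ v₀) p q * x q = 0 at h3
    have h4 : ∀ q, M (SS Γ v₀) p q = if q = p then (Fintype.card (Lin Γ) : ℂ) *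
        e₁ (rp p.1) (z p.2 + SS Γ v₀) else 0 := by
      intro q
      have h5 : rp q.1 (z q.2) + SS Γ v₀ = rp q.1 (z q.2 + SS Γ v₀) := by
        rw [act_add, lin_SS (rp_mem q.1)]
      simp only [M, k]
      rw [h5]
      have h6 : ∀ j, ψ j p.1⁻¹ * K j p.2 (rp q.1 (z q.2 + SS Γ v₀)) =
          e₁ (rp q.1) (z q.2 + SS Γ v₀) * (if q.2 = p.2 then 1 else 0) *
            (ψ j p.1⁻¹ * ψ j q.1) := by
        intro j
        rw [(hKs j p.2).eq _ (rp_mem q.1), twi, lch_rp]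
        split_ifs with hq
        · rw [hq, hK1]
          ring
        · rw [hK0 j p.2 q.2 hq]
          ring
      rw [Finset.sum_congr rfl fun j _ => h6 j, ← Finset.mul_sum, sum_lch hψ2 hψ3]
      by_cases hq : q = p
      · subst hq
        simp only [if_true]
        ring
      · rw [if_neg hq]
        by_cases hq2 : q.2 = p.2
        · have hq1 : q.1 ≠ p.1 := fun h7 => hq (Prod.ext h7 hq2)
          rw [if_neg hq1, mul_zero]
        · rw [if_neg hq2, mul_zero, zero_mul]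
    rw [Finset.sum_congr rfl fun q _ => by rw [h4 q]] at h3
    simp only [ite_mul, zero_mul] at h3
    rw [Finset.sum_ite_eq' Finset.univ p, if_pos (Finset.mem_univ p)] at h3
    exact (mul_eq_zero.1 h3).resolve_left
      (mul_ne_zero (by exact_mod_cast Fintype.card_ne_zero) (h₁.ne (rp_mem p.1) _))
  have h3 := gen hMd hM0 hσd hMσ (1, i)
  obtain ⟨x, hx⟩ := hsn.ne
  obtain ⟨a, ha⟩ := hφs (rp 1 (z i) - x)
  have h4 := h3 a
  simp only [σ] at h4
  rw [ha, sub_sub_cancel] at h4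
  exact (mul_eq_zero.1 ((mul_eq_zero.1 h4).resolve_right
    (inv_ne_zero (h.ne (rp_mem _) _)))).resolve_right hx

end Q36.HV
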