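import Pool.Agent.Q36.HV.F

/-!
# The induction step for tangent vectors
-/

set_option autoImplicit false

namespace Q36.HV

open Pool.Agent.W594.SYZ2 Pool.Agent.W594.SYZ2.TQ Q47.FJ
open Filter Topology

variable {V : Type*} [NormedAddCommGroup V] [NormedSpace ℂ V]
  {Γ : Subgroup (V ≃ᵃ[ℂ] V)} {e e₁ e₂ : (V ≃ᵃ[ℂ] V) → V → ℂ} {H H₁ H₂ : V → V → ℂ}

variable [Fintype (Lin Γ)] [FiniteDimensional ℂ V]

omit [FiniteDimensional ℂ V] in
theorem along_sum {n : ℕ} (K : Fin n → V → ℂ) (hK : ∀ j, Differentiable ℂ (K j)) (c : Fin n → ℂ)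
    (x w : V) : fderiv ℂ (fun y => ∑ j, c j * K j y) x w = ∑ j, c j * fderiv ℂ (K j) x w := by
  have h1 : HasFDerivAt (fun y => ∑ j, c j * K j y) (∑ j, c j • fderiv ℂ (K j) x) x := by
    refine HasFDerivAt.fun_sum fun j _ => ?_
    exact ((hK j) x).hasFDerivAt.const_mul (c j)
  rw [h1.fderiv, sum_apply]
  rfl

/-- Separation of tangent vectors. -/
theorem step_tan (hΓ : IsTorusQuotient Γ)
    (hab : ∀ g h : Lin Γ, g * h = h * g) (h : PD Γ e H) (h₁ : PD Γ e₁ H₁) (h₂ : PD Γ e₂ H₂)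
    (he : ∀ γ ∈ Γ, ∀ z, e γ z = e₁ γ z * e₂ γ z) (z w : V) (κ : ℂ)
    (hint : ∀ χ, Uch Γ χ → ∃ d : V → ℂ, NZ d ∧ ∀ v, d v ≠ 0 → ∀ i : Fin 2, ∃ K,
      Sec Γ (twi e₁ χ) K ∧ K (z + SS Γ v) = (if i = 0 then 1 else 0) ∧
        fderiv ℂ K (z + SS Γ v) w = (if i = 0 then 0 else 1))
    (hrel : ∀ f, Sec Γ e f → fderiv ℂ f z w = κ * f z) : False := by
  classical
  obtain ⟨n, ψ, hψ1, hψ2, hψ3⟩ := chars (Lin Γ) hab
  choose d hd hK using fun j => hint _ (lch_uch (hψ1 j))
  obtain ⟨v₀, hv₀⟩ := common hd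
  choose K hKs hK0 hK1 using fun j i => hK j v₀ (hv₀ j) i
  obtain ⟨s, hs, hsn⟩ := exists_th hΓ.discrete hΓ.span_top h₂.herm h₂.pos h₂.semi
  have hsec := sec_of_th h₂ hs
  obtain ⟨φ, hφ⟩ := exists_end h₂.herm h₂.pos h₁.herm
  have hφs := end_surj h₂.herm h₁.pos hφ
  have hφd : Differentiable ℂ fun x => φ x := (LinearMap.toContinuousLinearMap φ).differentiable
  let k : Lin Γ → Fin 2 → V → ℂ := fun g i x => ∑ j, ψ j g⁻¹ * K j i x
  have hk : ∀ g i, Sec (tra Γ) e₁ (k g i) := fun g i =>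
    Sec.sum (fun j => sec_tra (hKs j i)) _
  -- the factor `1 / e` and its derivative
  let E : Lin Γ → V → ℂ := fun g x => (e (rp g) x)⁻¹
  have hEd : ∀ g, Differentiable ℂ (E g) := fun g =>
    (h.holo (rp_mem g)).inv fun x => h.ne (rp_mem g) x
  let M : V → Matrix (Lin Γ × Fin 2) (Lin Γ × Fin 2) ℂ := fun a p q =>
    if q.2 = 0 then k p.1 p.2 (rp q.1 z + a) else fderiv ℂ (k p.1 p.2) (rp q.1 z + a) (q.1.1 w)
  let σ : V → Lin Γ × Fin 2 → ℂ := fun a q =>
    if q.2 = 0 then fderiv ℂ s (rp q.1 z - φ a) (q.1.1 w) * E q.1 z +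
        s (rp q.1 z - φ a) * (fderiv ℂ (E q.1) z w - κ * E q.1 z)
      else s (rp q.1 z - φ a) * E q.1 z
  have hMd : ∀ p q, Differentiable ℂ fun a => M a p q := by
    intro p q
    by_cases hq : q.2 = 0
    · simp only [M, hq, if_true]
      exact (hk p.1 p.2).holo.comp (differentiable_id.const_add _)
    · simp only [M, hq, if_false]
      exact (Pool.Agent.Helper857.differentiable_fderiv_apply (hk p.1 p.2).holo _).comp
        (differentiable_id.const_add _)
  have hσd : ∀ q, Differentiable ℂ fun a => σ a q := by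
    intro q
    have h3 : Differentiable ℂ fun a => s (rp q.1 z - φ a) := hs.holo.comp (hφd.const_sub _)
    by_cases hq : q.2 = 0
    · simp only [σ, hq, if_true]
      have h4 : Differentiable ℂ fun a => fderiv ℂ s (rp q.1 z - φ a) (q.1.1 w) :=
        (Pool.Agent.Helper857.differentiable_fderiv_apply hs.holo _).comp (hφd.const_sub _)
      exact (h4.mul_const _).add (h3.mul_const _)
    · simp only [σ, hq, if_false]
      exact h3.mul_const _
  have hline : ∀ (g : Lin Γ) (x : V) (τ : ℂ), rp g (x + τ • w) = rp g x + τ • g.1 w := by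
    intro g x τ
    rw [act_add, map_smul, rp_lin]
  have hMσ : ∀ a, (M a).mulVec (σ a) = 0 := by
    intro a
    funext p
    have h3 := avg_sec h (prod_sec h₁ h₂ he hφ (hk p.1 p.2) hsec a)
    have h4 := hrel _ h3
    have d1 := hasDerivAt_along (h3.holo z) w
    have d2 : HasDerivAt (fun τ : ℂ => avg Γ e (fun z => k p.1 p.2 (z + a) * s (z - φ a))
        (z + τ • w)) (∑ g : Lin Γ, ((fderiv ℂ (k p.1 p.2) (rp g z + a) (g.1 w) *
          s (rp g z - φ a) + k p.1 p.2 (rp g z + a) * fderiv ℂ s (rp g z - φ a) (g.1 w)) *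
            E g z + k p.1 p.2 (rp g z + a) * s (rp g z - φ a) * fderiv ℂ (E g) z w)) 0 := by
      have e1 : (fun τ : ℂ => avg Γ e (fun z => k p.1 p.2 (z + a) * s (z - φ a)) (z + τ • w)) =
          fun τ : ℂ => ∑ g : Lin Γ, k p.1 p.2 (rp g z + a + τ • g.1 w) *
            s (rp g z - φ a + τ • g.1 w) * E g (z + τ • w) := by
        funext τ
        rw [avg]
        refine Finset.sum_congr rfl fun g _ => ?_
        beta_reduce
        rw [hline, div_eq_mul_inv]
        have e2 : rp g z + τ • g.1 w + a = rp g z + a + τ • g.1 w := by abel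
        have e3 : rp g z + τ • g.1 w - φ a = rp g z - φ a + τ • g.1 w := by abel
        rw [e2, e3]
      rw [e1]
      refine HasDerivAt.fun_sum fun g _ => ?_
      have d3 := hasDerivAt_along ((hk p.1 p.2).holo (rp g z + a)) (g.1 w)
      have d4 := hasDerivAt_along (hs.holo (rp g z - φ a)) (g.1 w)
      have d5 := hasDerivAt_along (hEd g z) w
      have d6 := (d3.fun_mul d4).fun_mul d5
      simp only [zero_smul, add_zero] at d6
      exact d6
    rw [d1.unique d2, avg, Finset.mul_sum] at h4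
    rw [Pi.zero_apply]
    change ∑ q : Lin Γ × Fin 2, M a p q * σ a q = _
    rw [Fintype.sum_prod_type]
    have h5 : ∀ g : Lin Γ, ∑ i : Fin 2, M a p (g, i) * σ a (g, i) =
        ((fderiv ℂ (k p.1 p.2) (rp g z + a) (g.1 w) *
          s (rp g z - φ a) + k p.1 p.2 (rp g z + a) * fderiv ℂ s (rp g z - φ a) (g.1 w)) *
            E g z + k p.1 p.2 (rp g z + a) * s (rp g z - φ a) * fderiv ℂ (E g) z w) -
          κ * (k p.1 p.2 (rp g z + a) * s (rp g z - φ a) / e (rp g) z) := by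
      intro g
      rw [Fin.sum_univ_two]
      have h6 : (1 : Fin 2) ≠ 0 := by decide
      simp only [M, σ, h6, if_true, if_false, div_eq_mul_inv]
      change _ = _ - κ * (k p.1 p.2 (rp g z + a) * s (rp g z - φ a) * E g z)
      ring
    rw [Finset.sum_congr rfl fun g _ => h5 g, Finset.sum_sub_distrib, h4, sub_self]
  have hM0 : ∀ x : Lin Γ × Fin 2 → ℂ, (M (SS Γ v₀)).mulVec x = 0 → x = 0 := by
    intro x hx
    set y := z + SS Γ v₀ with hy
    have hrpy : ∀ g : Lin Γ, rp g z + SS Γ v₀ = rp g y := fun g => by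
      rw [hy, act_add, lin_SS (rp_mem g)]
    -- the derivatives of `K`
    have hKd : ∀ (j : Fin n) (i : Fin 2) (g : Lin Γ), fderiv ℂ (K j i) (rp g y) (g.1 w) =
        ψ j g * (fderiv ℂ (fun x => e₁ (rp g) x) y w * (if i = 0 then 1 else 0) +
          e₁ (rp g) y * (if i = 0 then 0 else 1)) := by
      intro j i g
      have d1 := hasDerivAt_along ((hKs j i).holo (rp g y)) (g.1 w)
      have d2 := (hasDerivAt_along (h₁.holo (rp_mem g) y) w).fun_mul
        (hasDerivAt_along ((hKs j i).holo y) w)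
      have d3 := d2.const_mul (ψ j g)
      have e1 := d1.unique (d3.congr_of_eventuallyEq (Eventually.of_forall fun τ => by
        beta_reduce
        rw [← hline g y τ, (hKs j i).eq _ (rp_mem g), twi, lch_rp]
        ring))
      simp only [zero_smul, add_zero] at e1
      rw [e1, hK0 j i, hK1 j i]
    have hKv : ∀ (j : Fin n) (i : Fin 2) (g : Lin Γ), K j i (rp g y) =
        ψ j g * (e₁ (rp g) y * (if i = 0 then 1 else 0)) := by
      intro j i g
      rw [(hKs j i).eq _ (rp_mem g), twi, lch_rp, hK0 j i]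
      ring
    have hkv : ∀ (g₀ g : Lin Γ) (i : Fin 2), k g₀ i (rp g y) = if g = g₀ then
        (Fintype.card (Lin Γ) : ℂ) * (e₁ (rp g) y * (if i = 0 then 1 else 0)) else 0 := by
      intro g₀ g i
      simp only [k]
      have h6 : ∀ j, ψ j g₀⁻¹ * K j i (rp g y) =
          (e₁ (rp g) y * (if i = 0 then 1 else 0)) * (ψ j g₀⁻¹ * ψ j g) := fun j => by
        rw [hKv]
        ring
      rw [Finset.sum_congr rfl fun j _ => h6 j, ← Finset.mul_sum, sum_lch hψ2 hψ3]
      split_ifs <;> ring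
    have hkd : ∀ (g₀ g : Lin Γ) (i : Fin 2), fderiv ℂ (k g₀ i) (rp g y) (g.1 w) =
        if g = g₀ then (Fintype.card (Lin Γ) : ℂ) * (fderiv ℂ (fun x => e₁ (rp g) x) y w *
          (if i = 0 then 1 else 0) + e₁ (rp g) y * (if i = 0 then 0 else 1)) else 0 := by
      intro g₀ g i
      have h5 := along_sum (fun j => K j i) (fun j => (hKs j i).holo) (fun j => ψ j g₀⁻¹)
        (rp g y) (g.1 w)
      change fderiv ℂ (fun x => ∑ j, ψ j g₀⁻¹ * K j i x) (rp g y) (g.1 w) = _
      rw [h5]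
      have h6 : ∀ j, ψ j g₀⁻¹ * fderiv ℂ (K j i) (rp g y) (g.1 w) =
          (fderiv ℂ (fun x => e₁ (rp g) x) y w * (if i = 0 then 1 else 0) +
            e₁ (rp g) y * (if i = 0 then 0 else 1)) * (ψ j g₀⁻¹ * ψ j g) := fun j => by
        rw [hKd]
        ring
      rw [Finset.sum_congr rfl fun j _ => h6 j, ← Finset.mul_sum, sum_lch hψ2 hψ3]
      split_ifs <;> ring
    have hN : (Fintype.card (Lin Γ) : ℂ) ≠ 0 := by exact_mod_cast Fintype.card_ne_zero
    have hrow : ∀ (g₀ : Lin Γ) (i : Fin 2), (k g₀ i (rp g₀ y)) * x (g₀, 0) +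
        (fderiv ℂ (k g₀ i) (rp g₀ y) (g₀.1 w)) * x (g₀, 1) = 0 := by
      intro g₀ i
      have h3 := congrFun hx (g₀, i)
      change ∑ q : Lin Γ × Fin 2, M (SS Γ v₀) (g₀, i) q * x q = 0 at h3
      rw [Fintype.sum_prod_type] at h3
      have h4 : ∀ g : Lin Γ, ∑ i' : Fin 2, M (SS Γ v₀) (g₀, i) (g, i') * x (g, i') =
          if g = g₀ then (k g₀ i (rp g₀ y)) * x (g₀, 0) +
            (fderiv ℂ (k g₀ i) (rp g₀ y) (g₀.1 w)) * x (g₀, 1) else 0 := by
        intro g
        rw [Fin.sum_univ_two]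
        have h6 : (1 : Fin 2) ≠ 0 := by decide
        simp only [M, h6, if_true, if_false]
        rw [hrpy]
        by_cases hg : g = g₀
        · rw [if_pos hg, hg]
        · rw [if_neg hg, hkv, if_neg hg, hkd, if_neg hg]
          ring
      rw [Finset.sum_congr rfl fun g _ => h4 g, Finset.sum_ite_eq' Finset.univ g₀,
        if_pos (Finset.mem_univ g₀)] at h3
      exact h3
    have hx1 : ∀ g₀ : Lin Γ, x (g₀, 1) = 0 := by
      intro g₀
      have h3 := hrow g₀ 1
      rw [hkv, if_pos rfl, hkd, if_pos rfl] at h3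
      have h6 : (1 : Fin 2) ≠ 0 := by decide
      simp only [h6, if_false] at h3
      refine (mul_eq_zero.1 ?_).resolve_left (mul_ne_zero hN (h₁.ne (rp_mem g₀) y))
      linear_combination h3
    funext p
    obtain ⟨g₀, i⟩ := p
    fin_cases i
    · have h3 := hrow g₀ 0
      rw [hx1 g₀, hkv, if_pos rfl, if_pos rfl] at h3
      refine (mul_eq_zero.1 ?_).resolve_left (mul_ne_zero hN (h₁.ne (rp_mem g₀) y))
      change _ * x (g₀, 0) = 0
      linear_combination h3
    · exact hx1 g₀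
  have h3 := gen hMd hM0 hσd hMσ (1, 1)
  obtain ⟨x, hx⟩ := hsn.ne
  obtain ⟨a, ha⟩ := hφs (rp 1 z - x)
  have h4 := h3 a
  have h6 : (1 : Fin 2) ≠ 0 := by decide
  simp only [σ, h6, if_false] at h4
  rw [ha, sub_sub_cancel] at h4
  exact hx ((mul_eq_zero.1 h4).resolve_right (inv_ne_zero (h.ne (rp_mem _) _)))

end Q36.HV
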