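import Pool.Agent.Q36.HV.G

/-!
# The induction
-/

set_option autoImplicit false

namespace Q36.HV

open Pool.Agent.W594.SYZ2 Pool.Agent.W594.SYZ2.TQ Q47.FJ
open Filter Topology

variable {V : Type*} [NormedAddCommGroup V] [NormedSpace ℂ V] [FiniteDimensional ℂ V]
  {Γ : Subgroup (V ≃ᵃ[ℂ] V)} {e e₁ e₂ e₃ : (V ≃ᵃ[ℂ] V) → V → ℂ} {H H₁ H₂ H₃ : V → V → ℂ}

/-- The line bundle on the torus. -/
noncomputable def toLB (h : PD Γ e H) : LB (torus (latt Γ)) :=
  ⟨fun b z => Units.mk0 (e (AffineEquiv.constVAdd ℂ V (b : V)) z) (h.ne b.2 z),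
    ⟨fun b => (h.holo b.2).differentiableOn, by
      intro k l m z _ _ _ _ _ _ hm
      have h1 : (m : V) = k + l := by
        have h2 : z + (m : V) = (z + k) + l := hm
        rw [add_assoc] at h2
        exact add_left_cancel h2
      have h2 : AffineEquiv.constVAdd ℂ V (m : V) =
          AffineEquiv.constVAdd ℂ V (l : V) * AffineEquiv.constVAdd ℂ V (k : V) := by
        apply AffineEquiv.ext
        intro v
        change (m : V) + v = l + (k + v)
        rw [h1]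
        abel
      apply Units.ext
      change e (AffineEquiv.constVAdd ℂ V (m : V)) z =
        e (AffineEquiv.constVAdd ℂ V (l : V)) (z + k) * e (AffineEquiv.constVAdd ℂ V (k : V)) z
      rw [h2, h.mul _ l.2 _ k.2]
      congr 2
      exact add_comm _ _⟩⟩

theorem ev_toLB (h : PD Γ e H) (b : latt Γ) (z : V) :
    ev (toLB h) b z = e (AffineEquiv.constVAdd ℂ V (b : V)) z := rfl

theorem posData (h : PD Γ e H) : PosData (toLB h) H (ch Γ e H) fun _ => 0 where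
  herm := h.herm
  pos := h.pos
  semi := h.semi
  holo := differentiable_const _
  eq b z := by
    rw [ev_toLB, h.tr, sub_self, Complex.exp_zero, mul_one]

omit [FiniteDimensional ℂ V] in
theorem sec_to {M : LB (torus (latt Γ))}
    (hM : ∀ (b : latt Γ) (z : V), ev M b z = e (AffineEquiv.constVAdd ℂ V (b : V)) z)
    {f : V → ℂ} (hf : Sec Γ e f) : IsSec M fun _ => f where
  holo _ := hf.holo.differentiableOn
  eq b z _ := by
    rw [hM]
    have h1 : f (z + b) = f (AffineEquiv.constVAdd ℂ V (b : V) z) := by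
      rw [AffineEquiv.constVAdd_apply, vadd_eq_add, add_comm]
    exact h1.trans (hf.eq _ b.2 z)

omit [FiniteDimensional ℂ V] in
theorem sec_from {M : LB (torus (latt Γ))}
    (hM : ∀ (b : latt Γ) (z : V), ev M b z = e (AffineEquiv.constVAdd ℂ V (b : V)) z)
    (ht : AreTranslations Γ) {f : Unit → V → ℂ} (hf : IsSec M f) : Sec Γ e (f ()) where
  holo := differentiableOn_univ.1 (hf.holo ())
  eq γ hγ z := by
    have h1 := eq_tra (ht γ hγ)
    have h2 : γ 0 ∈ latt Γ := latt_of_tra (mem_tra.2 ⟨hγ, ht γ hγ⟩)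
    have h3 : f () (z + γ 0) = ev M ⟨γ 0, h2⟩ z * f () z := hf.eq ⟨γ 0, h2⟩ z (Set.mem_univ _)
    rw [hM] at h3
    have h5 : γ z = z + γ 0 := by
      rw [act γ z, ht γ hγ]
    have h6 : e γ z = e (AffineEquiv.constVAdd ℂ V (γ 0)) z := congrFun (congrArg e h1) z
    rw [h5, h6]
    exact h3

theorem base_gg (hΓ : IsTorusQuotient Γ) (ht : AreTranslations Γ) (h : Pr Γ 1 e) : G1 Γ e := by
  obtain ⟨e₁, e₂, ⟨H₁, h₁⟩, ⟨H₂, h₂⟩, he⟩ := h
  have h3 := gg_two hΓ.discrete hΓ.span_top (posData h₁) (posData h₂)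
  intro z
  obtain ⟨f, hf, hf0⟩ := h3 () z (Set.mem_univ _)
  refine ⟨f (), sec_from (fun b z => ?_) ht hf, hf0⟩
  rw [ev_mul, ev_toLB, ev_toLB, he _ b.2]

theorem base_va (hΓ : IsTorusQuotient Γ) (ht : AreTranslations Γ) (h : Pr Γ 2 e) : V1 Γ e := by
  have hg := base_gg hΓ ht (Pr.less 1 e h)
  obtain ⟨e₁₂, e₃, ⟨e₁, e₂, ⟨H₁, h₁⟩, ⟨H₂, h₂⟩, he₁₂⟩, ⟨H₃, h₃⟩, he⟩ := h
  have hM : ∀ (b : latt Γ) (z : V), ev (toLB h₁ * toLB h₂ * toLB h₃) b z =
      e (AffineEquiv.constVAdd ℂ V (b : V)) z := fun b z => by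
    rw [ev_mul, ev_mul, ev_toLB, ev_toLB, ev_toLB, he _ b.2, he₁₂ _ b.2]
  have hgg : GG (toLB h₁ * toLB h₂ * toLB h₃) := by
    rintro ⟨⟩ z _
    obtain ⟨f, hf, hf0⟩ := hg z
    exact ⟨fun _ => f, sec_to hM hf, hf0⟩
  have h4 := va_three hΓ.discrete hΓ.span_top (posData h₁) (posData h₂) (posData h₃) hgg
  refine ⟨hg, fun z z' hz => ?_, fun z w hz => ?_⟩
  · obtain ⟨b, -, -, -, hb⟩ := h4.pts () z (Set.mem_univ _) () z' (Set.mem_univ _)
      fun f hf hf0 => hz (f ()) (sec_from hM ht hf) hf0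
    refine ⟨AffineEquiv.constVAdd ℂ V (b : V), b.2, ?_⟩
    rw [AffineEquiv.constVAdd_apply, vadd_eq_add, add_comm]
    exact hb
  · exact h4.tan () z (Set.mem_univ _) w fun f hf hf0 => hz (f ()) (sec_from hM ht hf) hf0

omit [FiniteDimensional ℂ V] in
theorem Sec.cmul {f : V → ℂ} (hf : Sec Γ e f) (a : ℂ) : Sec Γ e fun x => a * f x :=
  ⟨hf.holo.const_mul a, fun γ hγ z => by
    rw [hf.eq γ hγ]
    ring⟩

omit [FiniteDimensional ℂ V] in
theorem Sec.lin {f g : V → ℂ} (hf : Sec Γ e f) (hg : Sec Γ e g) (a b : ℂ) :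
    Sec Γ e fun x => a * f x + b * g x :=
  ⟨(hf.holo.const_mul a).add (hg.holo.const_mul b), fun γ hγ z => by
    rw [hf.eq γ hγ, hg.eq γ hγ]
    ring⟩

omit [FiniteDimensional ℂ V] in
theorem fd_lin {f g : V → ℂ} (hf : Differentiable ℂ f) (hg : Differentiable ℂ g) (a b : ℂ)
    (y w : V) : fderiv ℂ (fun x => a * f x + b * g x) y w =
      a * fderiv ℂ f y w + b * fderiv ℂ g y w := by
  have h1 : HasFDerivAt (fun x => a * f x + b * g x) (a • fderiv ℂ f y + b • fderiv ℂ g y) y :=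
    ((hf y).hasFDerivAt.const_mul a).add ((hg y).hasFDerivAt.const_mul b)
  rw [h1.fderiv]
  rfl

omit [FiniteDimensional ℂ V] in
theorem alb_torus (hΓ : IsTorusQuotient Γ) : IsTorusQuotient (alb Γ) where
  discrete := by
    rw [latt_alb]
    exact hΓ.discrete
  span_top := by
    rw [latt_alb]
    exact hΓ.span_top
  finite_linear := hΓ.finite_linear.subset fun _ ⟨γ, hγ, h⟩ => ⟨γ, hγ.1, h⟩

/-- The linear parts commute. -/
def Comm (Γ : Subgroup (V ≃ᵃ[ℂ] V)) : Prop :=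
  ∀ γ ∈ Γ, ∀ δ ∈ Γ, ∀ v, γ.linear (δ.linear v) = δ.linear (γ.linear v)

omit [FiniteDimensional ℂ V] in
theorem Comm.lin (h : Comm Γ) (g g' : Lin Γ) : g * g' = g' * g := by
  apply Subtype.ext
  apply LinearEquiv.ext
  intro v
  obtain ⟨γ, hγ, hg⟩ := g.2
  obtain ⟨δ, hδ, hg'⟩ := g'.2
  have h1 : γ.linear = g.1 := hg
  have h2 : δ.linear = g'.1 := hg'
  change g.1 (g'.1 v) = g'.1 (g.1 v)
  rw [← h1, ← h2]
  exact h γ hγ δ hδ v

theorem step_gg {m : ℕ} (hΓ : IsTorusQuotient Γ) (hc : Comm Γ)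
    (ih : ∀ e, Pr (alb Γ) m e → G1 (alb Γ) e) (h : Pr Γ (m + 1) e) : G1 Γ e := by
  have := finite_Lin hΓ
  have : Fintype (Lin Γ) := Fintype.ofFinite _
  obtain ⟨H, hPD⟩ := Pr.pd _ _ h
  obtain ⟨e₁, e₂, h1, ⟨H₂, h₂⟩, he⟩ := h
  obtain ⟨H₁, h₁⟩ := Pr.pd _ _ h1
  intro z
  by_contra hcon
  push Not at hcon
  have h3 := step_pts (I := Unit) hΓ hc.lin hPD h₁ h₂ he (fun _ => z) (fun _ => 1)
    (fun χ hχ => by
      obtain ⟨k, hk, v, hkv⟩ := leaf hΓ (h₁.twi hχ)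
        (ih _ (Pr.mono (alb_le Γ) m _ (Pr.twi hχ m _ h1))) z
      have hSd : Differentiable ℂ fun v => SS Γ v :=
        (LinearMap.toContinuousLinearMap (SS Γ)).differentiable
      refine ⟨fun v => k (z + SS Γ v), ⟨hk.holo.comp (hSd.const_add z), v, hkv⟩,
        fun v hv _ => ⟨_, hk.cmul (k (z + SS Γ v))⁻¹, inv_mul_cancel₀ hv, fun j hj => ?_⟩⟩
      exact absurd (Subsingleton.elim _ _) hj)
    (fun f hf => by
      rw [Finset.univ_unique, Finset.sum_singleton, hcon f hf, mul_zero]) ()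
  exact one_ne_zero h3

theorem step_va {m : ℕ} (hΓ : IsTorusQuotient Γ) (hc : Comm Γ)
    (ih : ∀ e, Pr Γ m e → G1 Γ e) (ih' : ∀ e, Pr (alb Γ) m e → V1 (alb Γ) e)
    (h : Pr Γ (m + 1) e) : V1 Γ e := by
  have := finite_Lin hΓ
  have : Fintype (Lin Γ) := Fintype.ofFinite _
  have hg : G1 Γ e := ih _ (Pr.less _ _ h)
  obtain ⟨H, hPD⟩ := Pr.pd _ _ h
  obtain ⟨e₁, e₂, h1, ⟨H₂, h₂⟩, he⟩ := h
  obtain ⟨H₁, h₁⟩ := Pr.pd _ _ h1
  have hSd : Differentiable ℂ fun v => SS Γ v :=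
    (LinearMap.toContinuousLinearMap (SS Γ)).differentiable
  refine ⟨hg, fun z₀ z₁ hz => ?_, fun z w hz => ?_⟩
  · obtain ⟨f₀, hf₀, hf₀0⟩ := hg z₀
    by_contra hcon
    have h3 := step_pts (I := Fin 2) hΓ hc.lin hPD h₁ h₂ he ![z₀, z₁]
      ![-(f₀ z₁ / f₀ z₀), 1]
      (fun χ hχ => by
        have hQ := Pr.twi hχ m _ h1
        have h4 : ¬ ∀ k k', Sec Γ (twi e₁ χ) k → Sec Γ (twi e₁ χ) k' → ∀ v,
            k (z₁ + SS Γ v) * k' (z₀ + SS Γ v) = k' (z₁ + SS Γ v) * k (z₀ + SS Γ v) := fun h5 =>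
          hcon (cross_pts hΓ (h₁.twi hχ) (ih _ hQ) (ih' _ (Pr.mono (alb_le Γ) m _ hQ)) h5)
        push Not at h4
        obtain ⟨k, k', hk, hk', v, hv⟩ := h4
        have d : ∀ f : V → ℂ, Differentiable ℂ f → ∀ z, Differentiable ℂ fun v =>
            f (z + SS Γ v) := fun f hf z => hf.comp (hSd.const_add z)
        refine ⟨fun v => k (z₁ + SS Γ v) * k' (z₀ + SS Γ v) -
          k' (z₁ + SS Γ v) * k (z₀ + SS Γ v),
          ⟨((d k hk.holo z₁).mul (d k' hk'.holo z₀)).sub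
            ((d k' hk'.holo z₁).mul (d k hk.holo z₀)), v, sub_ne_zero.2 hv⟩,
          fun v hv i => ?_⟩
        obtain ⟨D, hD⟩ : ∃ D : ℂ, D = k (z₁ + SS Γ v) * k' (z₀ + SS Γ v) -
          k' (z₁ + SS Γ v) * k (z₀ + SS Γ v) := ⟨_, rfl⟩
        have hD0 : D ≠ 0 := by
          rw [hD]
          exact hv
        fin_cases i
        · refine ⟨_, hk'.lin hk (k (z₁ + SS Γ v) / D) (-(k' (z₁ + SS Γ v) / D)), ?_, ?_⟩
          · change k (z₁ + SS Γ v) / D * k' (z₀ + SS Γ v) +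
              -(k' (z₁ + SS Γ v) / D) * k (z₀ + SS Γ v) = 1
            field_simp
            rw [hD]
            ring
          · intro j hj
            fin_cases j
            · exact absurd rfl hj
            · change k (z₁ + SS Γ v) / D * k' (z₁ + SS Γ v) +
                -(k' (z₁ + SS Γ v) / D) * k (z₁ + SS Γ v) = 0
              ring
        · refine ⟨_, hk.lin hk' (k' (z₀ + SS Γ v) / D) (-(k (z₀ + SS Γ v) / D)), ?_, ?_⟩
          · change k' (z₀ + SS Γ v) / D * k (z₁ + SS Γ v) +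
              -(k (z₀ + SS Γ v) / D) * k' (z₁ + SS Γ v) = 1
            field_simp
            rw [hD]
            ring
          · intro j hj
            fin_cases j
            · change k' (z₀ + SS Γ v) / D * k (z₀ + SS Γ v) +
                -(k (z₀ + SS Γ v) / D) * k' (z₀ + SS Γ v) = 0
              ring
            · exact absurd rfl hj)
      (fun f hf => by
        rw [Fin.sum_univ_two]
        change -(f₀ z₁ / f₀ z₀) * f z₀ + 1 * f z₁ = 0
        have h4 := hz _ (hf.lin hf₀ (f₀ z₀) (-(f z₀))) (by ring)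
        beta_reduce at h4
        field_simp
        linear_combination h4) 1
    exact one_ne_zero h3
  · by_contra hw
    obtain ⟨f₀, hf₀, hf₀0⟩ := hg z
    refine step_tan hΓ hc.lin hPD h₁ h₂ he z w (fderiv ℂ f₀ z w / f₀ z)
      (fun χ hχ => ?_) (fun f hf => ?_)
    · have hQ := Pr.twi hχ m _ h1
      have h4 : ¬ ∀ k k', Sec Γ (twi e₁ χ) k → Sec Γ (twi e₁ χ) k' → ∀ v,
          fderiv ℂ k (z + SS Γ v) w * k' (z + SS Γ v) =
            fderiv ℂ k' (z + SS Γ v) w * k (z + SS Γ v) := fun h5 =>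
        hw (cross_tan hΓ (h₁.twi hχ) (ih _ hQ) (ih' _ (Pr.mono (alb_le Γ) m _ hQ)) h5)
      push Not at h4
      obtain ⟨k, k', hk, hk', v, hv⟩ := h4
      have d : ∀ f : V → ℂ, Differentiable ℂ f → Differentiable ℂ fun v =>
          f (z + SS Γ v) := fun f hf => hf.comp (hSd.const_add z)
      have dd : ∀ f : V → ℂ, Differentiable ℂ f → Differentiable ℂ fun v =>
          fderiv ℂ f (z + SS Γ v) w := fun f hf =>
        (Pool.Agent.Helper857.differentiable_fderiv_apply hf w).comp (hSd.const_add z)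
      refine ⟨fun v => fderiv ℂ k (z + SS Γ v) w * k' (z + SS Γ v) -
        fderiv ℂ k' (z + SS Γ v) w * k (z + SS Γ v),
        ⟨((dd k hk.holo).mul (d k' hk'.holo)).sub ((dd k' hk'.holo).mul (d k hk.holo)), v,
          sub_ne_zero.2 hv⟩, fun v hv i => ?_⟩
      obtain ⟨D, hD⟩ : ∃ D : ℂ, D = fderiv ℂ k (z + SS Γ v) w * k' (z + SS Γ v) -
        fderiv ℂ k' (z + SS Γ v) w * k (z + SS Γ v) := ⟨_, rfl⟩
      have hD0 : D ≠ 0 := by
        rw [hD]
        exact hv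
      have h6 : (1 : Fin 2) ≠ 0 := by decide
      fin_cases i
      · refine ⟨_, hk'.lin hk (fderiv ℂ k (z + SS Γ v) w / D)
          (-(fderiv ℂ k' (z + SS Γ v) w / D)), ?_, ?_⟩
        · change fderiv ℂ k (z + SS Γ v) w / D * k' (z + SS Γ v) +
            -(fderiv ℂ k' (z + SS Γ v) w / D) * k (z + SS Γ v) = 1
          field_simp
          rw [hD]
          ring
        · rw [fd_lin hk'.holo hk.holo]
          change fderiv ℂ k (z + SS Γ v) w / D * fderiv ℂ k' (z + SS Γ v) w +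
            -(fderiv ℂ k' (z + SS Γ v) w / D) * fderiv ℂ k (z + SS Γ v) w = 0
          ring
      · refine ⟨_, hk.lin hk' (k' (z + SS Γ v) / D) (-(k (z + SS Γ v) / D)), ?_, ?_⟩
        · change k' (z + SS Γ v) / D * k (z + SS Γ v) +
            -(k (z + SS Γ v) / D) * k' (z + SS Γ v) = 0
          ring
        · rw [fd_lin hk.holo hk'.holo]
          change k' (z + SS Γ v) / D * fderiv ℂ k (z + SS Γ v) w +
            -(k (z + SS Γ v) / D) * fderiv ℂ k' (z + SS Γ v) w = 1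
          field_simp
          rw [hD]
          ring
    · have h4 := hz _ (hf.lin hf₀ (f₀ z) (-(f z))) (by ring)
      rw [fd_lin hf.holo hf₀.holo] at h4
      field_simp
      linear_combination h4

theorem main (ℓ : ℕ) : ∀ Γ : Subgroup (V ≃ᵃ[ℂ] V), IsTorusQuotient Γ → Comm Γ →
    AreTranslations (alb^[ℓ] Γ) →
    (∀ e, Pr Γ (ℓ + 1) e → G1 Γ e) ∧ (∀ e, Pr Γ (ℓ + 2) e → V1 Γ e) := by
  induction ℓ with
  | zero =>
    intro Γ hΓ _ ht
    exact ⟨fun e h => base_gg hΓ ht h, fun e h => base_va hΓ ht h⟩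
  | succ ℓ ih =>
    intro Γ hΓ hc ht
    obtain ⟨i1, i2⟩ := ih (alb Γ) (alb_torus hΓ)
      (fun γ hγ δ hδ => hc γ hγ.1 δ hδ.1) ht
    have h1 : ∀ e, Pr Γ (ℓ + 1 + 1) e → G1 Γ e := fun e h => step_gg hΓ hc i1 h
    exact ⟨h1, fun e h => step_va hΓ hc h1 i2 h⟩

end Q36.HV
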