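import Pool.Agent.Q36.HV.H

/-!
# Ample line bundles on the quotients
-/

set_option autoImplicit false

namespace Q36.HV

open Pool.Agent.W594.SYZ2 Pool.Agent.W594.SYZ2.TQ Q47.FJ Pool.Agent.TH735.AQ
open Filter Topology

variable {V : Type*} [NormedAddCommGroup V] [NormedSpace ℂ V] [FiniteDimensional ℂ V]
  {Γ : Subgroup (V ≃ᵃ[ℂ] V)} {H : V → V → ℂ} {M M' : LB (quot Γ)}

theorem ev_mul_q (M : LB (quot Γ)) (γ δ : Γ) (z : V) :
    ev M (γ * δ) z = ev M γ ((δ : V ≃ᵃ[ℂ] V) z) * ev M δ z := by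
  have h1 := M.2.2 δ γ (γ * δ) z (Set.mem_univ _) (Set.mem_univ _) (Set.mem_univ _) rfl rfl rfl
    rfl
  have h2 := congrArg (fun x : ℂˣ => (x : ℂ)) h1
  rw [Units.val_mul] at h2
  exact h2

/-- The line bundle on the quotient in the other language. -/
noncomputable def toW (M : LB (quot Γ)) : LineBundle Γ where
  e γ z := ev M γ z
  holo γ := differentiableOn_univ.1 (M.2.1 γ)
  ne_zero γ z := ev_ne M γ z
  mul γ δ z := ev_mul_q M γ δ z
  stab γ z hz := by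
    have h1 := M.2.2 γ γ γ z (Set.mem_univ _) (Set.mem_univ _) (Set.mem_univ _) rfl rfl rfl
      (by
        change (γ : V ≃ᵃ[ℂ] V) z = (γ : V ≃ᵃ[ℂ] V) ((γ : V ≃ᵃ[ℂ] V) z)
        rw [hz, hz])
    have h2 := congrArg (fun x : ℂˣ => (x : ℂ)) h1
    rw [Units.val_mul] at h2
    have h3 : ((M.1 γ ((quot Γ).φ γ z) : ℂˣ) : ℂ) = ev M γ z := by
      change ev M γ ((γ : V ≃ᵃ[ℂ] V) z) = ev M γ z
      rw [hz]
    change ev M γ z = _ at h2
    rw [h3] at h2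
    change ev M γ z = ev M γ z * ev M γ z at h2
    exact mul_left_cancel₀ (ev_ne M γ z) (by rw [mul_one]; exact h2.symm)

/-- `M` is given by the factor `e` up to a coboundary. -/
def Nrm (M : LB (quot Γ)) (e : (V ≃ᵃ[ℂ] V) → V → ℂ) : Prop :=
  ∃ F : V → ℂ, Differentiable ℂ F ∧ ∀ (γ : Γ) (z : V),
    ev M γ z = e (γ : V ≃ᵃ[ℂ] V) z * Complex.exp (F ((γ : V ≃ᵃ[ℂ] V) z) - F z)

theorem Nrm.mul {e e' e'' : (V ≃ᵃ[ℂ] V) → V → ℂ} (h : Nrm M e) (h' : Nrm M' e')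
    (he : ∀ γ ∈ Γ, ∀ z, e'' γ z = e γ z * e' γ z) : Nrm (M * M') e'' := by
  obtain ⟨F, hF, h1⟩ := h
  obtain ⟨F', hF', h2⟩ := h'
  refine ⟨fun z => F z + F' z, hF.add hF', fun γ z => ?_⟩
  rw [ev_mul, h1, h2, he γ γ.2, mul_mul_mul_comm, ← Complex.exp_add]
  congr 2
  ring

/-- The normalised factor. -/
noncomputable def nf (M : LB (quot Γ)) (F : V → ℂ) (γ : V ≃ᵃ[ℂ] V) (z : V) : ℂ :=
  open Classical in if h : γ ∈ Γ then tw (toW M) F ⟨γ, h⟩ z else 1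

theorem nf_eq (M : LB (quot Γ)) (F : V → ℂ) {γ : V ≃ᵃ[ℂ] V} (h : γ ∈ Γ) (z : V) :
    nf M F γ z = tw (toW M) F ⟨γ, h⟩ z := by
  rw [nf, dif_pos h]

theorem nrm_nf {F : V → ℂ} (hF : Differentiable ℂ F) : Nrm M (nf M F) := by
  refine ⟨F, hF, fun γ z => ?_⟩
  rw [nf_eq M F γ.2, tw]
  change ev M γ z = ev M γ z * _ * _
  rw [mul_assoc, ← Complex.exp_add]
  have h1 : F z - F ((γ : V ≃ᵃ[ℂ] V) z) + (F ((γ : V ≃ᵃ[ℂ] V) z) - F z) = 0 := by ring
  have h2 : ((⟨(γ : V ≃ᵃ[ℂ] V), γ.2⟩ : Γ) : V ≃ᵃ[ℂ] V) z = (γ : V ≃ᵃ[ℂ] V) z := rfl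
  rw [h2, h1, Complex.exp_zero, mul_one]

theorem pot_of {F : V → ℂ} (hF : Differentiable ℂ F) (h : ∀ (γ : Γ) (z : V),
    ‖ev M γ z‖ ^ 2 = Real.exp (Real.pi * (H ((γ : V ≃ᵃ[ℂ] V) z) ((γ : V ≃ᵃ[ℂ] V) z)).re
      + 2 * (F ((γ : V ≃ᵃ[ℂ] V) z)).re - (Real.pi * (H z z).re + 2 * (F z).re))) :
    IsPot (toW M) H F := ⟨hF, h⟩

/-- The shape of the normalised factor. -/
theorem nf_shape (hH : IsHermitian H) {F : V → ℂ} (hF : IsPot (toW M) H F) {γ : V ≃ᵃ[ℂ] V}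
    (hγ : γ ∈ Γ) : ∃ c : ℂ, ‖c‖ = 1 ∧
      ∀ z, nf M F γ z = c * Complex.exp (lex H (γ 0) (γ.linear z)) := by
  have h1 := tw_norm hF ⟨γ, hγ⟩ 0
  refine ⟨tw (toW M) F ⟨γ, hγ⟩ 0 * Complex.exp (-(Real.pi / 2 * H (γ 0) (γ 0))), ?_, fun z => ?_⟩
  · have h2 : ‖tw (toW M) F ⟨γ, hγ⟩ 0 * Complex.exp (-(Real.pi / 2 * H (γ 0) (γ 0)))‖ ^ 2
        = 1 := by
      rw [norm_mul, mul_pow, h1, Complex.norm_exp, ← Real.exp_nat_mul, ← Real.exp_add,
        Real.exp_eq_one_iff]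
      change Real.pi * ((H (γ 0) (γ 0)).re - (H 0 0).re) + _ = 0
      have h3 : (Real.pi / 2 * H (γ 0) (γ 0) : ℂ) = ((Real.pi / 2 : ℝ) : ℂ) * H (γ 0) (γ 0) := by
        push_cast
        ring
      rw [h_zero_left hH, h3, Complex.neg_re, Complex.re_ofReal_mul, Complex.zero_re]
      push_cast
      ring
    have h4 := norm_nonneg (tw (toW M) F ⟨γ, hγ⟩ 0 *
      Complex.exp (-(Real.pi / 2 * H (γ 0) (γ 0))))
    nlinarith
  · rw [nf_eq M F hγ, tw_eq hH hF, mul_assoc, ← Complex.exp_add, lex]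
    congr 2
    change Real.pi * H (γ.linear z) (γ 0) = _
    ring

/-- The positivity of the Chern form. -/
theorem pos_key (hs : Submodule.span ℝ (latt Γ : Set V) = ⊤) (hH : IsHermitian H) {t : V → ℂ}
    (ht : Differentiable ℂ t) {w : V} (hw : fderiv ℂ t 0 w ≠ 0)
    (hper : ∀ b ∈ latt Γ, ∀ v, ‖t (b + v)‖ ^ 2 * Real.exp (-(Real.pi * (H (b + v) (b + v)).re)) =
      ‖t v‖ ^ 2 * Real.exp (-(Real.pi * (H v v).re))) : 0 < (H w w).re := by
  have : ProperSpace V := FiniteDimensional.proper ℂ V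
  by_contra hneg
  push Not at hneg
  let φ : V → ℝ := fun v => ‖t v‖ ^ 2 * Real.exp (-(Real.pi * (H v v).re))
  have hcont : Continuous φ := by
    have h2 : Continuous fun v => (H v v).re := diag_continuous hH
    exact (ht.continuous.norm.pow 2).mul
      (Real.continuous_exp.comp (continuous_const.mul h2).neg)
  obtain ⟨R, hR⟩ := cobounded (latt Γ) hs
  obtain ⟨C, hC⟩ : ∃ C, ∀ v ∈ Metric.closedBall (0 : V) R, ‖φ v‖ ≤ C :=
    (isCompact_closedBall _ _).exists_bound_of_continuousOn hcont.continuousOn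
  have hC' : ∀ v, φ v ≤ C := fun v => by
    obtain ⟨b, hb, hbR⟩ := hR v
    have h1 : φ (b + v) = φ v := hper b hb v
    rw [← h1]
    exact (le_abs_self _).trans (hC _ (by rwa [mem_closedBall_zero_iff]))
  have hline : Differentiable ℂ fun τ : ℂ => τ • w := differentiable_id.smul_const w
  have hbd : ∀ τ : ℂ, ‖t (τ • w)‖ ^ 2 ≤ C := fun τ => by
    have h2 := hC' (τ • w)
    simp only [φ] at h2
    refine le_trans (le_mul_of_one_le_right (by positivity) (Real.one_le_exp ?_)) h2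
    rw [h_diag_smul hH]
    have := mul_nonneg Real.pi_pos.le (mul_nonneg (sq_nonneg ‖τ‖) (neg_nonneg.2 hneg))
    linarith
  have hconst : ∀ τ : ℂ, t (τ • w) = t ((0 : ℂ) • w) := fun τ => by
    refine (ht.comp hline).apply_eq_apply_of_bounded ?_ τ 0
    refine (Metric.isBounded_closedBall (x := (0 : ℂ)) (r := C + 1)).subset ?_
    rintro _ ⟨z, rfl⟩
    rw [mem_closedBall_zero_iff]
    have h2 := hbd z
    have h3 : ‖t (z • w)‖ ≤ ‖t (z • w)‖ ^ 2 + 1 := by nlinarith [sq_nonneg (‖t (z • w)‖ - 1)]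
    exact h3.trans (by linarith)
  have hd1 : HasDerivAt (fun τ : ℂ => t (τ • w)) 0 0 := by
    simp only [hconst]
    exact hasDerivAt_const _ _
  have hd2 := hasDerivAt_along (ht 0) w
  simp only [zero_add] at hd2
  exact hw (hd2.unique hd1)

/-- A very ample line bundle has a positive Chern form. -/
theorem pos_of_va_q (hΓ : IsTorusQuotient Γ) (hH : IsHermitian H) {F : V → ℂ}
    (hF : IsPot (toW M) H F) (hva : VA M) : IsPositiveForm H := by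
  intro w hw
  have h1 : ∃ f, IsSec M f ∧ f () 0 = 0 ∧ fderiv ℂ (f ()) 0 w ≠ 0 := by
    by_contra hcon
    push Not at hcon
    exact hw (hva.tan () 0 (Set.mem_univ _) w hcon)
  obtain ⟨f, hf, hf0, hfw⟩ := h1
  have hfd : Differentiable ℂ (f ()) := differentiableOn_univ.1 (hf.holo ())
  have hE : Differentiable ℂ fun z => Complex.exp (-F z) := hF.1.neg.cexp
  refine pos_key hΓ.span_top hH (t := fun z => f () z * Complex.exp (-F z)) (hfd.mul hE) ?_ ?_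
  · have h4 : fderiv ℂ (fun z => f () z * Complex.exp (-F z)) 0 =
        f () 0 • fderiv ℂ (fun z => Complex.exp (-F z)) 0 + Complex.exp (-F 0) •
          fderiv ℂ (f ()) 0 := fderiv_fun_mul (hfd 0) (hE 0)
    rw [h4, add_apply, smul_apply, smul_apply, hf0, smul_eq_mul, smul_eq_mul, zero_mul, zero_add]
    exact mul_ne_zero (Complex.exp_ne_zero _) hfw
  · intro b hb v
    have h2 : f () (b + v) = ev M (tr b hb) v * f () v := hf.eq (tr b hb) v (Set.mem_univ _)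
    have h3 : ‖ev M (tr b hb) v‖ ^ 2 = Real.exp (Real.pi * (H (b + v) (b + v)).re +
      2 * (F (b + v)).re - (Real.pi * (H v v).re + 2 * (F v).re)) := hF.2 (tr b hb) v
    rw [h2, norm_mul, norm_mul, norm_mul, Complex.norm_exp, Complex.norm_exp, mul_pow, mul_pow,
      mul_pow, h3, ← Real.exp_nat_mul, ← Real.exp_nat_mul]
    have h5 : Real.exp (Real.pi * (H (b + v) (b + v)).re + 2 * (F (b + v)).re -
        (Real.pi * (H v v).re + 2 * (F v).re)) * Real.exp ((2 : ℕ) * (-F (b + v)).re) *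
        Real.exp (-(Real.pi * (H (b + v) (b + v)).re)) =
        Real.exp ((2 : ℕ) * (-F v).re) * Real.exp (-(Real.pi * (H v v).re)) := by
      rw [← Real.exp_add, ← Real.exp_add, ← Real.exp_add]
      congr 1
      simp only [Complex.neg_re]
      push_cast
      ring
    linear_combination ‖f () v‖ ^ 2 * h5

theorem IsChern.pow_q (hM : IsChern M H) (N : ℕ) : IsChern (M ^ N) fun v w => N * H v w := by
  obtain ⟨h1, F, hF, hM⟩ := hM
  refine ⟨IsHermitian.nsmul h1 N, fun z => N * F z, hF.const_mul _, fun b z => ?_⟩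
  rw [ev_pow, norm_pow, pow_right_comm, hM, ← Real.exp_nat_mul]
  congr 1
  simp only [Complex.mul_re, Complex.natCast_re, Complex.natCast_im, zero_mul, sub_zero]
  ring

/-- Ample line bundles are given by positive factors. -/
theorem pd_of_ample (hΓ : IsTorusQuotient Γ) (hM : IsChern M H) (ha : IsAmple M) :
    ∃ e, Nrm M e ∧ PD Γ e H := by
  obtain ⟨N, hN, hva⟩ := ha
  have hpos : IsPositiveForm H := by
    intro v hv
    obtain ⟨hH', F', hF', h'⟩ := IsChern.pow_q hM N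
    have h1 := pos_of_va_q hΓ hH' (pot_of hF' h') hva v hv
    rw [show (N : ℂ) = ((N : ℝ) : ℂ) by push_cast; rfl, Complex.re_ofReal_mul] at h1
    exact (mul_pos_iff_of_pos_left (by exact_mod_cast hN)).1 h1
  obtain ⟨hH, F, hF, h⟩ := hM
  have hpot := pot_of hF h
  refine ⟨nf M F, nrm_nf hF, hH, hpos, fun γ hγ v w => h_inv hH hpot ⟨γ, hγ⟩ v w,
    fun γ hγ δ hδ z => ?_, fun γ hγ => nf_shape hH hpot hγ⟩
  rw [nf_eq M F (Γ.mul_mem hγ hδ), nf_eq M F hγ, nf_eq M F hδ]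
  exact tw_mul (L := toW M) (F := F) ⟨γ, hγ⟩ ⟨δ, hδ⟩ z

/-- Line bundles with Chern form zero are given by unitary characters. -/
theorem uch_of_zero (hM : IsChern M fun _ _ => 0) :
    ∃ χ, Uch Γ χ ∧ Nrm M fun γ _ => χ γ := by
  obtain ⟨hH, F, hF, h⟩ := hM
  have hpot := pot_of (H := fun _ _ => 0) hF h
  have h1 : ∀ γ ∈ Γ, ∀ z, nf M F γ z = nf M F γ 0 := by
    intro γ hγ z
    obtain ⟨c, -, hc⟩ := nf_shape hH hpot hγ
    rw [hc, hc]
    rfl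
  refine ⟨fun γ => nf M F γ 0, ⟨fun γ hγ => ?_, fun γ hγ δ hδ => ?_⟩, F, hF, fun γ z => ?_⟩
  · obtain ⟨c, hc1, hc⟩ := nf_shape hH hpot hγ
    rw [hc, lex, mul_zero, mul_zero, add_zero, Complex.exp_zero, mul_one, hc1]
  · have h2 := tw_mul (L := toW M) (F := F) ⟨γ, hγ⟩ ⟨δ, hδ⟩ 0
    rw [nf_eq M F (Γ.mul_mem hγ hδ), nf_eq M F hδ]
    refine h2.trans ?_
    rw [← h1 γ hγ (δ 0), nf_eq M F hγ]
  · beta_reduce
    rw [← h1 γ γ.2 z, nf_eq M F γ.2, tw]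
    change ev M γ z = ev M γ z * _ * _
    rw [mul_assoc, ← Complex.exp_add]
    have h1 : F z - F ((γ : V ≃ᵃ[ℂ] V) z) + (F ((γ : V ≃ᵃ[ℂ] V) z) - F z) = 0 := by ring
    have h2 : ((⟨(γ : V ≃ᵃ[ℂ] V), γ.2⟩ : Γ) : V ≃ᵃ[ℂ] V) z = (γ : V ≃ᵃ[ℂ] V) z := rfl
    rw [h2, h1, Complex.exp_zero, mul_one]

/-- Sections. -/
theorem sec_q {e : (V ≃ᵃ[ℂ] V) → V → ℂ} {F : V → ℂ} (hF : Differentiable ℂ F)
    (h : ∀ (γ : Γ) (z : V),
      ev M γ z = e (γ : V ≃ᵃ[ℂ] V) z * Complex.exp (F ((γ : V ≃ᵃ[ℂ] V) z) - F z)) {f : V → ℂ}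
    (hf : Sec Γ e f) : IsSec M fun _ z => f z * Complex.exp (F z) where
  holo _ := (hf.holo.mul hF.cexp).differentiableOn
  eq γ z _ := by
    change f ((γ : V ≃ᵃ[ℂ] V) z) * Complex.exp (F ((γ : V ≃ᵃ[ℂ] V) z)) =
      ev M γ z * (f z * Complex.exp (F z))
    rw [hf.eq _ γ.2, h]
    have h2 : Complex.exp (F ((γ : V ≃ᵃ[ℂ] V) z)) =
        Complex.exp (F ((γ : V ≃ᵃ[ℂ] V) z) - F z) * Complex.exp (F z) := by
      rw [← Complex.exp_add, sub_add_cancel]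
    rw [h2]
    ring

theorem gg_q {e : (V ≃ᵃ[ℂ] V) → V → ℂ} (h : Nrm M e) (hg : G1 Γ e) : GG M := by
  obtain ⟨F, hF, h⟩ := h
  intro _ z _
  obtain ⟨f, hf, hf0⟩ := hg z
  exact ⟨_, sec_q hF h hf, mul_ne_zero hf0 (Complex.exp_ne_zero _)⟩

theorem va_q {e : (V ≃ᵃ[ℂ] V) → V → ℂ} (h : Nrm M e) (hg : V1 Γ e) : VA M := by
  have hgg := gg_q h hg.gg
  obtain ⟨F, hF, h⟩ := h
  refine ⟨hgg, fun _ z _ _ z' _ hz => ?_, fun _ z _ w hw => ?_⟩
  · obtain ⟨γ, hγ, h1⟩ := hg.pts z z' fun f hf hf0 => by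
      have h2 := hz _ (sec_q hF h hf) (by rw [hf0, zero_mul])
      exact (mul_eq_zero.1 h2).resolve_right (Complex.exp_ne_zero _)
    exact ⟨⟨γ, hγ⟩, rfl, rfl, Set.mem_univ _, h1⟩
  · refine hg.tan z w fun f hf hf0 => ?_
    have h2 := hw _ (sec_q hF h hf) (by rw [hf0, zero_mul])
    have h4 : fderiv ℂ (fun z => f z * Complex.exp (F z)) z =
        f z • fderiv ℂ (fun z => Complex.exp (F z)) z + Complex.exp (F z) •
          fderiv ℂ f z := fderiv_fun_mul (hf.holo z) (hF.cexp z)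
    rw [h4, add_apply, smul_apply, smul_apply, hf0, smul_eq_mul, smul_eq_mul, zero_mul,
      zero_add] at h2
    exact (mul_eq_zero.1 h2).resolve_left (Complex.exp_ne_zero _)

/-- Products of ample line bundles and a line bundle with Chern form zero. -/
theorem prod_q (hΓ : IsTorusQuotient Γ) {N : LB (quot Γ)} (hN : IsChern N fun _ _ => 0) (k : ℕ)
    (A : Fin (k + 1) → LB (quot Γ)) (hA : ∀ j, (∃ H, IsChern (A j) H) ∧ IsAmple (A j)) :
    ∃ e, Nrm (N * ∏ j, A j) e ∧ Pr Γ k e := by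
  induction k with
  | zero =>
    obtain ⟨⟨H, hH⟩, ha⟩ := hA 0
    obtain ⟨e, he, hp⟩ := pd_of_ample hΓ hH ha
    obtain ⟨χ, hχ, hn⟩ := uch_of_zero hN
    refine ⟨twi e χ, ?_, H, hp.twi hχ⟩
    rw [Fin.prod_univ_one, mul_comm]
    exact he.mul hn fun _ _ _ => rfl
  | succ k ih =>
    obtain ⟨e, he, hp⟩ := ih (fun j => A j.castSucc) fun j => hA j.castSucc
    obtain ⟨⟨H, hH⟩, ha⟩ := hA (Fin.last _)
    obtain ⟨e', he', hp'⟩ := pd_of_ample hΓ hH ha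
    refine ⟨fun γ z => e γ z * e' γ z, ?_, e, e', hp, ⟨H, hp'⟩, fun _ _ _ => rfl⟩
    rw [Fin.prod_univ_castSucc, ← mul_assoc]
    exact he.mul he' fun _ _ _ => rfl

/-- The theorem for products of ample line bundles. -/
theorem main_q (hΓ : IsTorusQuotient Γ) (hc : Comm Γ) {ℓ : ℕ}
    (ht : AreTranslations (alb^[ℓ] Γ)) {N : LB (quot Γ)} (hN : IsChern N fun _ _ => 0) {k : ℕ}
    {A : Fin k → LB (quot Γ)} (hA : ∀ j, (∃ H, IsChern (A j) H) ∧ IsAmple (A j)) :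
    (ℓ + 2 ≤ k → GG (N * ∏ j, A j)) ∧ (ℓ + 3 ≤ k → VA (N * ∏ j, A j)) := by
  obtain ⟨m1, m2⟩ := main ℓ Γ hΓ hc ht
  rcases k with _ | k
  · exact ⟨fun h => by omega, fun h => by omega⟩
  · obtain ⟨e, he, hp⟩ := prod_q hΓ hN k A hA
    exact ⟨fun h => gg_q he (m1 e (Pr.lesss (by omega) hp)),
      fun h => va_q he (m2 e (Pr.lesss (by omega) hp))⟩

/-- The Chern form of the canonical line bundle is zero. -/
theorem canonical_q (hΓ : IsTorusQuotient Γ) {κ : LB (quot Γ)} (hκ : IsCanonical κ) :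
    IsChern κ fun _ _ => 0 := by
  have := finite_Lin hΓ
  have : Fintype (Lin Γ) := Fintype.ofFinite _
  refine ⟨IsHermitian.zero, fun _ => 0, differentiable_const _, fun γ z => ?_⟩
  have h1 := hκ γ z (Set.mem_univ _)
  have h2 : fderiv ℂ ((quot Γ).φ γ) z =
      LinearMap.toContinuousLinearMap ((γ : V ≃ᵃ[ℂ] V).linear : V →ₗ[ℂ] V) := by
    have h3 : (quot Γ).φ γ = fun v =>
        LinearMap.toContinuousLinearMap ((γ : V ≃ᵃ[ℂ] V).linear : V →ₗ[ℂ] V) v +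
          (γ : V ≃ᵃ[ℂ] V) 0 := by
      funext v
      exact act _ v
    rw [h3]
    exact ((ContinuousLinearMap.hasFDerivAt _).add_const _).fderiv
  rw [h2] at h1
  have h4 : ((LinearMap.toContinuousLinearMap ((γ : V ≃ᵃ[ℂ] V).linear : V →ₗ[ℂ] V) :
      V →L[ℂ] V) : V →ₗ[ℂ] V) = ((γ : V ≃ᵃ[ℂ] V).linear : V →ₗ[ℂ] V) := by
    ext v
    rfl
  rw [h4] at h1
  set D := LinearMap.det ((γ : V ≃ᵃ[ℂ] V).linear : V →ₗ[ℂ] V) with hD
  let g : Lin Γ := ⟨(γ : V ≃ᵃ[ℂ] V).linear, γ, γ.2, rfl⟩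
  have h5 : g ^ Fintype.card (Lin Γ) = 1 := pow_card_eq_one
  have h6 : (γ : V ≃ᵃ[ℂ] V).linear ^ Fintype.card (Lin Γ) = 1 := congrArg Subtype.val h5
  have h7 : D ^ Fintype.card (Lin Γ) = 1 := by
    rw [hD, ← map_pow]
    have h8 : (((γ : V ≃ᵃ[ℂ] V).linear : V →ₗ[ℂ] V)) ^ Fintype.card (Lin Γ) =
        (((γ : V ≃ᵃ[ℂ] V).linear ^ Fintype.card (Lin Γ) : V ≃ₗ[ℂ] V) : V →ₗ[ℂ] V) := by
      generalize Fintype.card (Lin Γ) = n
      induction n with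
      | zero => rfl
      | succ n ih =>
        rw [pow_succ, pow_succ, ih]
        rfl
    rw [h8, h6]
    exact LinearMap.det_id
  have h8 : ‖D‖ = 1 := by
    refine (pow_eq_one_iff_of_nonneg (norm_nonneg D)
      (Fintype.card_ne_zero (α := Lin Γ))).1 ?_
    rw [← norm_pow, h7, norm_one]
  have h9 := congrArg norm h1
  rw [norm_mul, h8, mul_one, norm_one] at h9
  rw [h9]
  simp

end Q36.HV
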