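import Pool.Agent.Q36.HV.N

/-!
# The length of the tower
-/

set_option autoImplicit false

namespace Q36.HV

open Pool.Agent.W594.SYZ2 Pool.Agent.W594.SYZ2.TQ Q47.FJ

variable {V : Type*} [NormedAddCommGroup V] [NormedSpace ℂ V] {Γ Δ : Subgroup (V ≃ᵃ[ℂ] V)}

theorem iter_le (n : ℕ) (Γ : Subgroup (V ≃ᵃ[ℂ] V)) : alb^[n] Γ ≤ Γ := by
  induction n generalizing Γ with
  | zero => exact le_rfl
  | succ n ih =>
    rw [Function.iterate_succ_apply]
    exact (ih (alb Γ)).trans (alb_le Γ)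

theorem AreTranslations.mono (h : AreTranslations Γ) (hle : Δ ≤ Γ) : AreTranslations Δ :=
  fun γ hγ => h γ (hle hγ)

theorem coinv_mono (hle : Δ ≤ Γ) : coinv Δ ≤ coinv Γ :=
  Submodule.span_mono fun _ ⟨γ, hγ, w, h⟩ => ⟨γ, hle hγ, w, h⟩

theorem coinv_bot (h : coinv Γ = ⊥) : AreTranslations Γ := by
  intro γ hγ v
  have h1 := coinv_mem hγ v
  rw [h, Submodule.mem_bot, sub_eq_zero] at h1
  exact h1

theorem alb_alb (h : coinv (alb Γ) = coinv Γ) : alb (alb Γ) = alb Γ := by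
  refine le_antisymm (alb_le _) ?_
  rintro γ ⟨hγ, b, hb, h1⟩
  refine ⟨⟨hγ, b, hb, h1⟩, b, ?_, ?_⟩
  · rw [latt_alb]
    exact hb
  · rw [h]
    exact h1

theorem alb_top (h : coinv Γ = ⊤) : alb Γ = Γ := by
  refine le_antisymm (alb_le _) fun γ hγ => ⟨hγ, 0, (latt Γ).zero_mem, ?_⟩
  rw [h]
  trivial

variable [FiniteDimensional ℂ V]

theorem dim_aux (n : ℕ) : ∀ Γ : Subgroup (V ≃ᵃ[ℂ] V), (∃ ℓ, AreTranslations (alb^[ℓ] Γ)) →
    Module.finrank ℂ (coinv Γ) ≤ n → AreTranslations (alb^[n] Γ) := by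
  induction n with
  | zero =>
    intro Γ _ h
    exact coinv_bot (Submodule.finrank_eq_zero.1 (Nat.le_zero.1 h))
  | succ n ih =>
    rintro Γ ⟨ℓ, hℓ⟩ h
    rw [Function.iterate_succ_apply]
    rcases ℓ with _ | ℓ
    · exact AreTranslations.mono hℓ ((iter_le n _).trans (alb_le Γ))
    · rw [Function.iterate_succ_apply] at hℓ
      by_cases heq : coinv (alb Γ) = coinv Γ
      · have h1 : alb^[ℓ] (alb Γ) = alb Γ := Function.iterate_fixed (alb_alb heq) ℓ
        rw [h1] at hℓ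
        exact hℓ.mono (iter_le n _)
      · refine ih (alb Γ) ⟨ℓ, hℓ⟩ ?_
        have h2 : coinv (alb Γ) < coinv Γ := lt_of_le_of_ne (coinv_mono (alb_le Γ)) heq
        have h3 := Submodule.finrank_lt_finrank_of_lt h2
        omega

/-- The length of the tower is at most `dim V - 1`. -/
theorem dim_bound (hΓ : ∃ ℓ, AreTranslations (alb^[ℓ] Γ)) (hV : 1 ≤ Module.finrank ℂ V) :
    AreTranslations (alb^[Module.finrank ℂ V - 1] Γ) := by
  by_cases htop : coinv Γ = ⊤
  · obtain ⟨ℓ, hℓ⟩ := hΓ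
    rw [Function.iterate_fixed (alb_top htop) ℓ] at hℓ
    exact hℓ.mono (iter_le _ _)
  · refine dim_aux _ Γ hΓ ?_
    have h1 := Submodule.finrank_lt (lt_top_iff_ne_top.2 htop).ne
    omega

/-- The group acts freely on `V`. -/
def ActsFreely (Γ : Subgroup (V ≃ᵃ[ℂ] V)) : Prop := ∀ γ ∈ Γ, ∀ z, γ z = z → γ = 1

omit [FiniteDimensional ℂ V] in
theorem coinv_cyclic {γ₀ : V ≃ᵃ[ℂ] V} (h : ∀ γ ∈ Γ, ∃ n : ℕ, γ.linear = γ₀.linear ^ n) {x : V}
    (hx : x ∈ coinv Γ) : ∃ u, x = γ₀.linear u - u := by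
  have hpow : ∀ (n : ℕ) (w : V), ∃ u, (γ₀.linear ^ n) w - w = γ₀.linear u - u := by
    intro n w
    induction n with
    | zero =>
      refine ⟨0, ?_⟩
      rw [pow_zero, map_zero, sub_zero]
      exact sub_self w
    | succ n ih =>
      obtain ⟨u, hu⟩ := ih
      refine ⟨u + (γ₀.linear ^ n) w, ?_⟩
      rw [pow_succ']
      change γ₀.linear ((γ₀.linear ^ n) w) - w = _
      rw [map_add]
      have h1 : γ₀.linear ((γ₀.linear ^ n) w) - w =
          ((γ₀.linear ^ n) w - w) + (γ₀.linear ((γ₀.linear ^ n) w) - (γ₀.linear ^ n) w) := by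
        abel
      rw [h1, hu]
      abel
  induction hx using Submodule.span_induction with
  | mem x hx =>
    obtain ⟨γ, hγ, w, rfl⟩ := hx
    obtain ⟨n, hn⟩ := h γ hγ
    rw [hn]
    exact hpow n w
  | zero => exact ⟨0, by rw [map_zero, sub_self]⟩
  | add x y _ _ hx hy =>
    obtain ⟨u, rfl⟩ := hx
    obtain ⟨u', rfl⟩ := hy
    exact ⟨u + u', by rw [map_add]; abel⟩
  | smul a x _ hx =>
    obtain ⟨u, rfl⟩ := hx
    exact ⟨a • u, by rw [map_smul, smul_sub]⟩

omit [FiniteDimensional ℂ V] in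
theorem Lin_mono (hle : Δ ≤ Γ) : Lin Δ ≤ Lin Γ := Subgroup.map_mono hle

omit [FiniteDimensional ℂ V] in
/-- The group of the linear parts of `alb Γ` is a proper subgroup. -/
theorem cyc_lt (hΓ : IsTorusQuotient Γ) (hf : ActsFreely Γ) (hc : IsCyclic (Lin Γ))
    (ht : ¬ AreTranslations Γ) : Lin (alb Γ) ≠ Lin Γ := by
  classical
  intro heq
  have := finite_Lin hΓ
  obtain ⟨g, hg⟩ := hc.exists_generator
  have hgm : g.1 ∈ Lin (alb Γ) := by
    rw [heq]
    exact g.2
  obtain ⟨γ, hγ, hγg⟩ := mem_Lin.1 hgm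
  obtain ⟨hγΓ, b, hb, hγb⟩ := hγ
  have hpow : ∀ δ ∈ Γ, ∃ n : ℕ, δ.linear = γ.linear ^ n := by
    intro δ hδ
    have h1 : (⟨δ.linear, δ, hδ, rfl⟩ : Lin Γ) ∈ Subgroup.zpowers g := hg _
    rw [mem_zpowers_iff_mem_range_orderOf] at h1
    obtain ⟨n, -, hn⟩ := Finset.mem_image.1 h1
    refine ⟨n, ?_⟩
    rw [hγg]
    exact (congrArg Subtype.val hn).symm
  obtain ⟨u, hu⟩ := coinv_cyclic hpow hγb
  have h1 : AffineEquiv.constVAdd ℂ V (-b) * γ ∈ Γ := Γ.mul_mem ((latt Γ).neg_mem hb) hγΓ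
  have h2 : (AffineEquiv.constVAdd ℂ V (-b) * γ) (-u) = -u := by
    change -b + γ (-u) = -u
    rw [act γ (-u), map_neg]
    have h3 : γ 0 = (γ.linear u - u) + b := by rw [← hu]; abel
    rw [h3]
    abel
  have h3 := hf _ h1 _ h2
  have h4 : ∀ v, γ.linear v = v := by
    intro v
    have h5 : (AffineEquiv.constVAdd ℂ V (-b) * γ).linear v = v := by
      rw [h3]
      rfl
    exact h5
  apply ht
  intro δ hδ v
  obtain ⟨n, hn⟩ := hpow δ hδ
  have h6 : γ.linear = 1 := LinearEquiv.ext h4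
  rw [hn, h6, one_pow]
  rfl

omit [FiniteDimensional ℂ V] in
/-- The length of the tower for cyclic groups. -/
theorem cyc_bound (n : ℕ) : ∀ Γ : Subgroup (V ≃ᵃ[ℂ] V), IsTorusQuotient Γ → ActsFreely Γ →
    IsCyclic (Lin Γ) → (Nat.card (Lin Γ)).primeFactorsList.length ≤ n →
    AreTranslations (alb^[n] Γ) := by
  induction n with
  | zero =>
    intro Γ hΓ _ _ h
    have := finite_Lin hΓ
    have h1 : (Nat.card (Lin Γ)).primeFactorsList = [] :=
      List.eq_nil_of_length_eq_zero (Nat.le_zero.1 h)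
    rw [Nat.primeFactorsList_eq_nil] at h1
    have h2 : Nat.card (Lin Γ) = 1 := h1.resolve_left Nat.card_pos.ne'
    have h3 := (Nat.card_eq_one_iff_unique.1 h2).1
    intro γ hγ v
    have h4 : (⟨γ.linear, γ, hγ, rfl⟩ : Lin Γ) = 1 := Subsingleton.elim _ _
    have h5 : γ.linear = 1 := congrArg Subtype.val h4
    rw [h5]
    rfl
  | succ n ih =>
    intro Γ hΓ hf hc h
    have := finite_Lin hΓ
    have := finite_Lin (alb_torus hΓ)
    rw [Function.iterate_succ_apply]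
    by_cases ht : AreTranslations Γ
    · exact ht.mono ((iter_le n _).trans (alb_le Γ))
    · refine ih (alb Γ) (alb_torus hΓ) (fun γ hγ => hf γ hγ.1) ?_ ?_
      · exact isCyclic_of_injective (Subgroup.inclusion (Lin_mono (alb_le Γ)))
          (Subgroup.inclusion_injective _)
      · have h1 : Nat.card (Lin (alb Γ)) ∣ Nat.card (Lin Γ) :=
          Subgroup.card_dvd_of_le (Lin_mono (alb_le Γ))
        obtain ⟨c, hcc⟩ := h1
        have h2 : Nat.card (Lin (alb Γ)) ≠ 0 := Nat.card_pos.ne'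
        have h3 : c ≠ 0 := by
          rintro rfl
          rw [mul_zero] at hcc
          exact Nat.card_pos.ne' hcc
        have h4 : c ≠ 1 := by
          rintro rfl
          rw [mul_one] at hcc
          refine cyc_lt hΓ hf hc ht ?_
          exact Subgroup.eq_of_le_of_card_ge (Lin_mono (alb_le Γ)) hcc.le
        have h5 := (Nat.perm_primeFactorsList_mul h2 h3).length_eq
        rw [← hcc, List.length_append] at h5
        have h6 : 0 < c.primeFactorsList.length := by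
          rw [List.length_pos_iff]
          intro h7
          rw [Nat.primeFactorsList_eq_nil] at h7
          omega
        omega

omit [FiniteDimensional ℂ V] in
theorem comm_of_cyclic (hc : IsCyclic (Lin Γ)) : Comm Γ := by
  intro γ hγ δ hδ v
  have h1 : (⟨γ.linear, γ, hγ, rfl⟩ : Lin Γ) * ⟨δ.linear, δ, hδ, rfl⟩ =
      ⟨δ.linear, δ, hδ, rfl⟩ * ⟨γ.linear, γ, hγ, rfl⟩ := by
    let _i := hc.commGroup
    exact mul_comm _ _
  have h2 : γ.linear * δ.linear = δ.linear * γ.linear := congrArg Subtype.val h1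
  exact LinearEquiv.congr_fun h2 v

end Q36.HV
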