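import Pool.Agent.Q36.HV.O

/-!
# Toric bundles over the quotients
-/

set_option autoImplicit false

namespace Q36.HV

open Pool.Agent.W594.SYZ2 Pool.Agent.W594.SYZ2.TQ Q47.FJ Q47.TB

variable {V : Type*} [NormedAddCommGroup V] [NormedSpace ℂ V] [FiniteDimensional ℂ V]
  {Γ : Subgroup (V ≃ᵃ[ℂ] V)} {H H' : V → V → ℂ} {M N : LB (quot Γ)}

theorem IsChern.one_q : IsChern (1 : LB (quot Γ)) fun _ _ => 0 := by
  refine ⟨IsHermitian.zero, fun _ => 0, differentiable_const _, fun b z => ?_⟩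
  rw [ev_one]
  simp

theorem IsChern.mul_q (hM : IsChern M H) (hN : IsChern N H') :
    IsChern (M * N) fun v w => H v w + H' v w := by
  obtain ⟨h1, F, hF, hM⟩ := hM
  obtain ⟨h2, F', hF', hN⟩ := hN
  refine ⟨IsHermitian.add h1 h2, fun z => F z + F' z, hF.add hF', fun b z => ?_⟩
  rw [ev_mul, norm_mul, mul_pow, hM, hN, ← Real.exp_add]
  congr 1
  simp only [Complex.add_re]
  ring

theorem IsChern.inv_q (hM : IsChern M H) : IsChern M⁻¹ fun v w => -H v w := by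
  obtain ⟨h1, F, hF, hM⟩ := hM
  refine ⟨IsHermitian.neg h1, fun z => -F z, hF.neg, fun b z => ?_⟩
  rw [ev_inv, norm_inv, inv_pow, hM, ← Real.exp_neg]
  congr 1
  simp only [Complex.neg_re]
  ring

/-- The group of the line bundles which have a Chern form. -/
def cpicq (Γ : Subgroup (V ≃ᵃ[ℂ] V)) : Subgroup (LB (quot Γ)) where
  carrier := {M | ∃ H, IsChern M H}
  one_mem' := ⟨_, IsChern.one_q⟩
  mul_mem' := by
    rintro M N ⟨H, hM⟩ ⟨H', hN⟩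
    exact ⟨_, hM.mul_q hN⟩
  inv_mem' := by
    rintro M ⟨H, hM⟩
    exact ⟨_, hM.inv_q⟩

variable {ι : Type} [Fintype ι] {n : ℕ} {u : ι → Fin n → ℤ} {S : Set (Set ι)} {c : ι → LB (quot Γ)}

theorem toric_q (hΓ : IsTorusQuotient Γ) (hc : Comm Γ) {ℓ : ℕ}
    (ht : AreTranslations (alb^[ℓ] Γ)) (hS : IsSmoothFan u S) (hcc : ∀ i, ∃ H, IsChern (c i) H)
    {N : LB (quot Γ)} (hN : IsCanonicalY c N) {k : ℕ} {d : Fin k → ι → ℤ}
    {M : Fin k → LB (quot Γ)} (hM : ∀ j, ∃ H, IsChern (M j) H)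
    (h : ∀ j, AmpleY u S c (d j) (M j)) :
    (n + 1 ≤ k → ℓ + 2 ≤ k → GGY u S c (fun i => ∑ j, d j i - 1) (N * ∏ j, M j)) ∧
      (n + 2 ≤ k → ℓ + 3 ≤ k → VAY u S c (fun i => ∑ j, d j i - 1) (N * ∏ j, M j)) := by
  refine ⟨fun hk hk2 => gg_red hS (cpicq Γ) hcc hN hk hM h fun κ hκ A hA => ?_,
    fun hk hk3 => va_red hS (cpicq Γ) hcc hN hk hM h fun κ hκ A hA => ?_⟩
  · exact (main_q hΓ hc ht (canonical_q hΓ hκ) hA).1 hk2
  · exact (main_q hΓ hc ht (canonical_q hΓ hκ) hA).2 hk3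

end Q36.HV
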