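import Pool.Agent.Q36.HV.P

/-!
# The iterated Albanese fibres
-/

set_option autoImplicit false

namespace Q36.HV

open Pool.Agent.W594.SYZ2 Pool.Agent.W594.SYZ2.TQ Q47.FJ Q47.TB

variable {V : Type*} [NormedAddCommGroup V] [NormedSpace ℂ V] {Γ Δ : Subgroup (V ≃ᵃ[ℂ] V)}

/-- The fundamental group of the fibres of the Albanese map of `V / Γ`: the `γ ∈ Γ` which act
trivially on `V / coinv Γ`. -/
def fib (Γ : Subgroup (V ≃ᵃ[ℂ] V)) : Subgroup (V ≃ᵃ[ℂ] V) where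
  carrier := {γ | γ ∈ Γ ∧ γ 0 ∈ coinv Γ}
  one_mem' := ⟨Γ.one_mem, (coinv Γ).zero_mem⟩
  mul_mem' := by
    rintro γ δ ⟨hγ, h1⟩ ⟨hδ, h2⟩
    refine ⟨Γ.mul_mem hγ hδ, ?_⟩
    have h3 : (γ * δ) 0 = γ 0 + δ 0 + (γ.linear (δ 0) - δ 0) := by
      rw [mul_zero_pt]
      abel
    rw [h3]
    exact (coinv Γ).add_mem ((coinv Γ).add_mem h1 h2) (coinv_mem hγ _)
  inv_mem' := by
    rintro γ ⟨hγ, h1⟩
    refine ⟨Γ.inv_mem hγ, ?_⟩
    have h3 : (γ⁻¹) 0 = -(((γ⁻¹).linear (γ 0) - γ 0) + γ 0) := by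
      rw [inv_zero_pt]
      abel
    rw [h3]
    exact (coinv Γ).neg_mem ((coinv Γ).add_mem (coinv_mem (Γ.inv_mem hγ) _) h1)

theorem fib_le (Γ : Subgroup (V ≃ᵃ[ℂ] V)) : fib Γ ≤ Γ := fun _ h => h.1

theorem latt_iter (n : ℕ) (Γ : Subgroup (V ≃ᵃ[ℂ] V)) : latt (alb^[n] Γ) = latt Γ := by
  induction n generalizing Γ with
  | zero => rfl
  | succ n ih => rw [Function.iterate_succ_apply, ih, latt_alb]

theorem fib_iter_le (n : ℕ) (Γ : Subgroup (V ≃ᵃ[ℂ] V)) : fib^[n] Γ ≤ Γ := by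
  induction n generalizing Γ with
  | zero => exact le_rfl
  | succ n ih =>
    rw [Function.iterate_succ_apply]
    exact (ih (fib Γ)).trans (fib_le Γ)

/-- Two groups with the same linear parts up to translations. -/
theorem coinv_le (h : ∀ γ ∈ Δ, ∃ δ ∈ Γ, δ.linear = γ.linear) : coinv Δ ≤ coinv Γ := by
  refine Submodule.span_mono ?_
  rintro _ ⟨γ, hγ, w, rfl⟩
  obtain ⟨δ, hδ, h1⟩ := h γ hγ
  exact ⟨δ, hδ, w, by rw [h1]⟩

/-- The elements of the iterates. -/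
theorem mem_iter (n : ℕ) (Γ : Subgroup (V ≃ᵃ[ℂ] V)) :
    fib^[n] Γ ≤ alb^[n] Γ ∧ (∀ γ ∈ alb^[n] Γ, ∃ b ∈ latt Γ,
      AffineEquiv.constVAdd ℂ V b * γ ∈ fib^[n] Γ) ∧
      ∀ γ ∈ Γ, (γ 0 ∈ coinv (fib^[n] Γ) → γ ∈ fib^[n] Γ) := by
  induction n with
  | zero =>
    refine ⟨le_rfl, fun γ hγ => ⟨0, (latt Γ).zero_mem, ?_⟩, fun γ hγ _ => hγ⟩
    have h1 : AffineEquiv.constVAdd ℂ V (0 : V) ∈ Γ := (latt Γ).zero_mem
    exact Γ.mul_mem h1 hγ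
  | succ n ih =>
    obtain ⟨i1, i2, i3⟩ := ih
    have hco : coinv (fib^[n] Γ) = coinv (alb^[n] Γ) := by
      refine le_antisymm (coinv_le fun γ hγ => ⟨γ, i1 hγ, rfl⟩) (coinv_le fun γ hγ => ?_)
      obtain ⟨b, _, h2⟩ := i2 γ hγ
      exact ⟨_, h2, rfl⟩
    rw [Function.iterate_succ_apply', Function.iterate_succ_apply']
    refine ⟨?_, ?_, ?_⟩
    · rintro γ ⟨hγ, h1⟩
      refine ⟨i1 hγ, 0, (latt _).zero_mem, ?_⟩
      rw [sub_zero, ← hco]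
      exact h1
    · rintro γ ⟨hγ, b, hb, h1⟩
      rw [latt_iter] at hb
      have h2 : AffineEquiv.constVAdd ℂ V (-b) * γ ∈ Γ :=
        Γ.mul_mem ((latt Γ).neg_mem hb) (iter_le n Γ hγ)
      have h3 : (AffineEquiv.constVAdd ℂ V (-b) * γ) 0 ∈ coinv (fib^[n] Γ) := by
        change -b + γ 0 ∈ _
        rw [hco, neg_add_eq_sub]
        exact h1
      exact ⟨-b, (latt Γ).neg_mem hb, i3 _ h2 h3, h3⟩
    · intro γ hγ h1
      have h2 : γ 0 ∈ coinv (fib^[n] Γ) := coinv_mono (fib_le _) h1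
      exact ⟨i3 γ hγ h2, h2⟩

/-- The two towers end at the same time. -/
theorem trans_iff (n : ℕ) (Γ : Subgroup (V ≃ᵃ[ℂ] V)) :
    AreTranslations (fib^[n] Γ) ↔ AreTranslations (alb^[n] Γ) := by
  obtain ⟨i1, i2, -⟩ := mem_iter n Γ
  refine ⟨fun h γ hγ v => ?_, fun h => h.mono i1⟩
  obtain ⟨b, _, h2⟩ := i2 γ hγ
  exact h _ h2 v

end Q36.HV
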