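import Pool.Agent.Q47.FJ.DefsT
import Pool.Agent.TH735.AQ.Nec

/-!
# Free quotients of complex tori: definitions

`X = V / Γ`, where `Γ` is a group of affine transformations of `V`.
-/

set_option autoImplicit false

namespace Q36.HV

open Pool.Agent.W594.SYZ2 Q47.FJ

/-- The group of the affine transformations of `V`. -/
def Aff (V : Type*) [NormedAddCommGroup V] [NormedSpace ℂ V] : Type _ := V ≃ᵃ[ℂ] V

variable {V : Type*} [NormedAddCommGroup V] [NormedSpace ℂ V]

instance instAff : Group (Aff V) := inferInstanceAs (Group (V ≃ᵃ[ℂ] V))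

/-- The image of the point `z`. -/
def pt (γ : Aff V) (z : V) : V := (show V ≃ᵃ[ℂ] V from γ) z

/-- The linear part of `γ`. -/
def lp (γ : Aff V) (v : V) : V := (show V ≃ᵃ[ℂ] V from γ).linear v

/-- The translation `z ↦ b + z`. -/
def shift (b : V) : Aff V := AffineEquiv.constVAdd ℂ V b

/-- The set of the linear parts of `Γ` (a group, since `Γ` is a group). -/
def parts (Γ : Subgroup (Aff V)) : Set (V → V) := {A | ∃ γ ∈ Γ, A = lp γ}

/-- `X = V / Γ` is the quotient of the complex torus `V / Λ` by the finite group `Γ / Λ`, which acts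
freely: the vectors `b` with `shift b ∈ Γ` form a lattice `Λ` of full rank in `V`, there are only
finitely many linear parts, and only the identity has fixed points. -/
structure IsFreeQuotient (Γ : Subgroup (Aff V)) : Prop where
  discrete : ∃ r : ℝ, 0 < r ∧ ∀ b, shift b ∈ Γ → ‖b‖ < r → b = 0
  span_top : Submodule.span ℝ {b | shift b ∈ Γ} = ⊤
  finite : (parts Γ).Finite
  free : ∀ γ ∈ Γ, ∀ z, pt γ z = z → γ = 1

theorem holo_pt [FiniteDimensional ℂ V] (γ : Aff V) : Differentiable ℂ (pt γ) :=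
  Pool.Agent.TH735.AQ.affine_differentiable γ

theorem pt_inv (γ : Aff V) (z : V) : pt γ⁻¹ (pt γ z) = z :=
  (show V ≃ᵃ[ℂ] V from γ).symm_apply_apply z

/-- The complex manifold `V / Γ`, with the chart `V` and the transition maps `γ ∈ Γ`. -/
def quo [FiniteDimensional ℂ V] (Γ : Subgroup (Aff V)) : Atlas V Unit Γ where
  U _ := Set.univ
  isOpen_U _ := isOpen_univ
  s _ := ()
  t _ := ()
  D _ := Set.univ
  isOpen_D _ := isOpen_univ
  sub _ := Set.subset_univ _
  φ γ := pt γ.1
  holo γ := (holo_pt γ.1).differentiableOn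
  maps _ _ _ := Set.mem_univ _
  refl _ _ _ := ⟨1, rfl, rfl, Set.mem_univ _, rfl⟩
  symm γ z _ := ⟨γ⁻¹, rfl, rfl, Set.mem_univ _, pt_inv γ.1 z⟩
  trans γ δ _ _ _ _ := ⟨δ * γ, rfl, rfl, Set.mem_univ _, rfl⟩

/-- The line bundle `M` on `X = V / Γ` has the first Chern form `H`: for some holomorphic function
`F` on `V`, `|s(z)|² exp (- π H(z,z) - 2 Re F(z))` defines a hermitian metric on `M` (its curvature is
the constant form given by `H`). Each line bundle on `X` has a Chern form. -/
def HasChern [FiniteDimensional ℂ V] {Γ : Subgroup (Aff V)} (M : LB (quo Γ))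
    (H : V → V → ℂ) : Prop :=
  IsHermitian H ∧ ∃ F : V → ℂ, Differentiable ℂ F ∧ ∀ (γ : Γ) (z : V),
    ‖ev M γ z‖ ^ 2 = Real.exp (Real.pi * (H (pt γ.1 z) (pt γ.1 z)).re + 2 * (F (pt γ.1 z)).re -
      (Real.pi * (H z z).re + 2 * (F z).re))

/-- The subspace spanned by the vectors `g w - w`, where `g` runs through the linear parts of the
`γ ∈ Γ` with `γ(0) ∈ W`. For `W = V` the Albanese torus of `X = V / Γ` is the quotient of
`V / fibreSpace Γ V` by translations, and `W' / {γ ∈ Γ | γ(0) ∈ W'}`, `W' = fibreSpace Γ V`, is the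
fibre of the Albanese map. The next iterate describes the fibre of the Albanese map of this fibre. -/
def fibreSpace (Γ : Subgroup (Aff V)) (W : Submodule ℂ V) : Submodule ℂ V :=
  Submodule.span ℂ {v | ∃ γ ∈ Γ, pt γ 0 ∈ W ∧ ∃ w, v = lp γ w - w}

end Q36.HV
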