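import Pool.Agent.Q36.HV.R
import Pool.Agent.Q36.HV.S

/-!
# The two languages
-/

set_option autoImplicit false

namespace Q36.HV

open Pool.Agent.W594.SYZ2 Pool.Agent.W594.SYZ2.TQ Q47.FJ Q47.TB

variable {V : Type*} [NormedAddCommGroup V] [NormedSpace ℂ V]

/-- The same group. -/
def toS (Γ : Subgroup (Aff V)) : Subgroup (V ≃ᵃ[ℂ] V) := Γ

variable {Γ : Subgroup (Aff V)}

theorem quo_eq [FiniteDimensional ℂ V] : quo Γ = quot (toS Γ) := rfl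

theorem torus_of (hΓ : IsFreeQuotient Γ) : IsTorusQuotient (toS Γ) where
  discrete := by
    obtain ⟨r, hr, h⟩ := hΓ.discrete
    refine discreteTopology_of_isOpen_singleton_zero ?_
    rw [Metric.isOpen_singleton_iff]
    refine ⟨r, hr, fun b hb => ?_⟩
    apply Subtype.ext
    refine h b b.2 ?_
    rwa [dist_zero_right] at hb
  span_top := hΓ.span_top
  finite_linear := by
    have h1 : {A : V ≃ₗ[ℂ] V | ∃ γ ∈ toS Γ, γ.linear = A} ⊆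
        (fun A : V ≃ₗ[ℂ] V => (A : V → V)) ⁻¹' parts Γ := by
      rintro _ ⟨γ, hγ, rfl⟩
      exact ⟨γ, hγ, rfl⟩
    refine (hΓ.finite.preimage ?_).subset h1
    exact DFunLike.coe_injective.injOn

theorem free_of (hΓ : IsFreeQuotient Γ) : ActsFreely (toS Γ) := fun γ hγ z hz => hΓ.free γ hγ z hz

theorem comm_of (h : ∀ A ∈ parts Γ, ∀ B ∈ parts Γ, A ∘ B = B ∘ A) : Comm (toS Γ) :=
  fun γ hγ δ hδ v => congrFun (h (lp γ) ⟨γ, hγ, rfl⟩ (lp δ) ⟨δ, hδ, rfl⟩) v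

theorem fibreSpace_mono {W W' : Submodule ℂ V} (h : W ≤ W') :
    fibreSpace Γ W ≤ fibreSpace Γ W' :=
  Submodule.span_mono fun _ ⟨γ, hγ, h1, h2⟩ => ⟨γ, hγ, h h1, h2⟩

theorem iter_anti (n : ℕ) :
    (fibreSpace Γ)^[n + 1] (⊤ : Submodule ℂ V) ≤ (fibreSpace Γ)^[n] ⊤ := by
  induction n with
  | zero => exact le_top
  | succ n ih =>
    have h1 := fibreSpace_mono (Γ := Γ) ih
    rw [← Function.iterate_succ_apply' (fibreSpace Γ),
      ← Function.iterate_succ_apply' (fibreSpace Γ)] at h1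
    exact h1

theorem mem_fib_iter (n : ℕ) : (∀ γ, γ ∈ fib^[n] (toS Γ) ↔
    γ ∈ toS Γ ∧ γ 0 ∈ (fibreSpace Γ)^[n] (⊤ : Submodule ℂ V)) := by
  induction n with
  | zero => exact fun γ => ⟨fun h => ⟨h, Submodule.mem_top⟩, fun h => h.1⟩
  | succ n ih =>
    have h1 : coinv (fib^[n] (toS Γ)) = (fibreSpace Γ)^[n + 1] (⊤ : Submodule ℂ V) := by
      rw [Function.iterate_succ_apply']
      refine le_antisymm (Submodule.span_mono ?_) (Submodule.span_mono ?_)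
      · rintro _ ⟨γ, hγ, w, rfl⟩
        obtain ⟨h2, h3⟩ := (ih γ).1 hγ
        exact ⟨γ, h2, h3, w, rfl⟩
      · rintro _ ⟨γ, h2, h3, w, rfl⟩
        exact ⟨γ, (ih γ).2 ⟨h2, h3⟩, w, rfl⟩
    intro γ
    rw [Function.iterate_succ_apply' fib]
    constructor
    · rintro ⟨h2, h3⟩
      rw [h1] at h3
      exact ⟨((ih γ).1 h2).1, h3⟩
    · rintro ⟨h2, h3⟩
      refine ⟨(ih γ).2 ⟨h2, iter_anti n h3⟩, ?_⟩
      rw [h1]
      exact h3

theorem trans_of {ℓ : ℕ} (h : (fibreSpace Γ)^[ℓ + 1] (⊤ : Submodule ℂ V) = ⊥) :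
    AreTranslations (alb^[ℓ] (toS Γ)) := by
  rw [← trans_iff]
  intro γ hγ v
  obtain ⟨h2, h3⟩ := (mem_fib_iter ℓ γ).1 hγ
  have h4 : γ.linear v - v ∈ (fibreSpace Γ)^[ℓ + 1] (⊤ : Submodule ℂ V) := by
    rw [Function.iterate_succ_apply']
    exact Submodule.subset_span ⟨γ, h2, h3, v, rfl⟩
  rw [h, Submodule.mem_bot, sub_eq_zero] at h4
  exact h4

/-- The linear parts. -/
noncomputable def linEquiv (Γ : Subgroup (Aff V)) : Lin (toS Γ) ≃ parts Γ :=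
  Equiv.ofBijective (fun g => ⟨(g.1 : V → V), by
    obtain ⟨γ, hγ, h⟩ := mem_Lin.1 g.2
    exact ⟨γ, hγ, by rw [← h]; rfl⟩⟩)
    ⟨fun g h hgh => Subtype.ext (DFunLike.coe_injective (congrArg Subtype.val hgh)), by
      rintro ⟨_, γ, hγ, rfl⟩
      exact ⟨⟨γ.linear, γ, hγ, rfl⟩, rfl⟩⟩

theorem card_parts : Nat.card (Lin (toS Γ)) = (parts Γ).ncard :=
  (Nat.card_congr (linEquiv Γ)).trans (Nat.card_coe_set_eq _)

theorem cyclic_of (h : ∃ γ₀ ∈ Γ, ∀ A ∈ parts Γ, ∃ n : ℕ, A = (lp γ₀)^[n]) :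
    IsCyclic (Lin (toS Γ)) := by
  obtain ⟨γ₀, hγ₀, h⟩ := h
  let γ' : V ≃ᵃ[ℂ] V := γ₀
  refine ⟨⟨⟨γ'.linear, γ', hγ₀, rfl⟩, fun g => ?_⟩⟩
  obtain ⟨γ, hγ, hg⟩ := mem_Lin.1 g.2
  obtain ⟨n, hn⟩ := h (lp γ) ⟨γ, hγ, rfl⟩
  refine ⟨n, ?_⟩
  apply Subtype.ext
  apply LinearEquiv.ext
  intro v
  have h1 : ∀ m : ℕ, ((γ'.linear ^ m : V ≃ₗ[ℂ] V) v) = (lp γ₀)^[m] v := by
    intro m
    induction m with
    | zero => rfl
    | succ m ih =>
      rw [pow_succ', Function.iterate_succ_apply', ← ih]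
      rfl
  have h2 := congrFun hn v
  rw [← h1 n] at h2
  have h3 : γ.linear v = g.1 v := by rw [hg]
  have h4 : lp γ v = γ.linear v := rfl
  rw [h4, h3] at h2
  rw [h2]
  change ((⟨γ'.linear, γ', hγ₀, rfl⟩ : Lin (toS Γ)) ^ (n : ℤ)).1 v = _
  rw [zpow_natCast]
  rfl

end Q36.HV
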